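import Pool.Agent.TH631.RC.Fin

/-!
# Actions on hyperbolic space: definitions for the statement
-/

set_option autoImplicit false

open Filter Topology Set

namespace Pool.Agent.TH631.RC

/-- Euclidean space of dimension `n + 1`. -/
def Euc (n : ℕ) : Type := EuclideanSpace ℝ (Fin (n + 1))

noncomputable instance instEuc1 (n : ℕ) : NormedAddCommGroup (Euc n) :=
  inferInstanceAs (NormedAddCommGroup (EuclideanSpace ℝ (Fin (n + 1))))

noncomputable instance instEuc2 (n : ℕ) : InnerProductSpace ℝ (Euc n) :=
  inferInstanceAs (InnerProductSpace ℝ (EuclideanSpace ℝ (Fin (n + 1))))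

/-- The unit sphere of `Euc n`, the sphere at infinity of hyperbolic space. -/
def Sph (n : ℕ) : Type := Metric.sphere (0 : Euc n) 1

noncomputable instance instSph (n : ℕ) : TopologicalSpace (Sph n) :=
  inferInstanceAs (TopologicalSpace (Metric.sphere (0 : Euc n) 1))

/-- Minkowski space `ℝ × ℝ ^ (n + 1)`. -/
def Mink (n : ℕ) : Type := ℝ × Euc n

noncomputable instance instMink1 (n : ℕ) : AddCommGroup (Mink n) :=
  inferInstanceAs (AddCommGroup (ℝ × Euc n))

noncomputable instance instMink2 (n : ℕ) : Module ℝ (Mink n) :=
  inferInstanceAs (Module ℝ (ℝ × Euc n))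

noncomputable instance instMink3 (n : ℕ) : TopologicalSpace (Mink n) :=
  inferInstanceAs (TopologicalSpace (ℝ × Euc n))

variable {n : ℕ}

/-- The time coordinate. -/
def time (v : Mink n) : ℝ := (show ℝ × Euc n from v).1

/-- The space coordinates. -/
def space (v : Mink n) : Euc n := (show ℝ × Euc n from v).2

/-- The Lorentz form `t t' - ⟨x, x'⟩`. -/
noncomputable def form (v w : Mink n) : ℝ := time v * time w - inner ℝ (space v) (space w)

/-- The light-like vector `(1, x)` of the point `x` of the unit sphere. -/
noncomputable def ray (x : Sph n) : Mink n := ((1 : ℝ), (show Metric.sphere (0 : Euc n) 1 from x).1)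

/-- The vector `(1, 0)`. -/
noncomputable def origin (n : ℕ) : Mink n := ((1 : ℝ), (0 : Euc n))

/-- Hyperbolic space of dimension `n + 1`, hyperboloid model. -/
def Hyp (n : ℕ) : Set (Mink n) := {v | form v v = 1 ∧ 0 < time v}

/-- An action of `G` by isometries of hyperbolic space of dimension `n + 1`: by linear maps which
preserve the Lorentz form and the sheet `Hyp n`. It is not supposed to be discrete or faithful. -/
structure HypAct (G : Type) [Group G] (n : ℕ) where
  map : G → Mink n → Mink n
  map_add : ∀ g v w, map g (v + w) = map g v + map g w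
  map_smul : ∀ g (c : ℝ) v, map g (c • v) = c • map g v
  map_one : ∀ v, map 1 v = v
  map_mul : ∀ g h v, map (g * h) v = map g (map h v)
  form_map : ∀ g v w, form (map g v) (map g w) = form v w
  time_pos : ∀ g, 0 < time (map g (origin n))

variable {G : Type} [Group G]

/-- The map `h` from the sphere at infinity to `X` is equivariant: if `g` maps the point `x` at
infinity to `x'`, then `h x' = g (h x)`. -/
def IsEquivariant {X : Type} [TopologicalSpace X] (ρ : HypAct G n) (α : Action G X)
    (h : Sph n → X) : Prop :=
  ∀ (g : G) (x x' : Sph n) (c : ℝ), 0 < c → ρ.map g (ray x) = c • ray x' → h x' = α.map g (h x)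

/-- The action on hyperbolic space is properly discontinuous. -/
def IsProper (ρ : HypAct G n) : Prop :=
  ∀ K : Set (Mink n), K ⊆ Hyp n → IsCompact K → {g : G | ∃ v ∈ K, ρ.map g v ∈ K}.Finite

/-- The point `c` at infinity is a cusp of full rank: a subgroup `P` of `G` fixes the light-like
vector of `c` (so it preserves every horoball centred at `c`) and acts cocompactly on the complement
of `c` in the sphere at infinity. -/
def IsFullCusp (ρ : HypAct G n) (c : Sph n) : Prop :=
  ∃ P : Subgroup G, (∀ g ∈ P, ρ.map g (ray c) = ray c) ∧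
    ∃ K : Set (Sph n), IsCompact K ∧ c ∉ K ∧
      ∀ w, w ≠ c → ∃ g ∈ P, ∃ w' ∈ K, ∃ s : ℝ, 0 < s ∧ ρ.map g (ray w) = s • ray w'

/-- The action on hyperbolic space is that of a lattice: it is properly discontinuous and for every
`κ > 0` there are finitely many points `c` at infinity, cusps of full rank, such that the action is
cocompact on the complement of the translates of the horoballs `form v (ray c) < κ` centred at these
points: every point `v` of hyperbolic space which is in no translate of these horoballs has a
translate in the ball of points with time coordinate at most `R`. -/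
def IsLatticeAct (ρ : HypAct G n) : Prop :=
  IsProper ρ ∧ ∀ κ : ℝ, 0 < κ → ∃ C : Finset (Sph n), (∀ c ∈ C, IsFullCusp ρ c) ∧
    ∃ R : ℝ, ∀ v ∈ Hyp n, (∀ g : G, ∀ c ∈ C, κ ≤ form (ρ.map g v) (ray c)) →
      ∃ g : G, time (ρ.map g v) ≤ R

/-- The action in the general setting. -/
noncomputable def HypAct.to (ρ : HypAct G n) : HypAction G (Euc n) where
  map g :=
    { toFun := fun v => ρ.map g v
      map_add' := fun v w => ρ.map_add g v w
      map_smul' := fun c v => ρ.map_smul g c v }
  map_one v := ρ.map_one v
  map_mul g h v := ρ.map_mul g h v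
  lor_map g v w := ρ.form_map g v w
  pos g := ρ.time_pos g

theorem main (hn : 1 ≤ n) {X : Type} [MetricSpace X] [CompactSpace X] (α : Action G X)
    (hα : IsConvergence α) (hgf : GeomFinite α) (ρ : HypAct G n) (h : Sph n → X)
    (hc : Continuous h) (hne : ∃ x y, h x ≠ h y) (he : IsEquivariant ρ α h) :
    IsHomeomorph h ∧ IsLatticeAct ρ := by
  have hE : 1 < Module.finrank ℝ (Euc n) := by
    have : Module.finrank ℝ (EuclideanSpace ℝ (Fin (n + 1))) = n + 1 := by simp
    change 1 < Module.finrank ℝ (EuclideanSpace ℝ (Fin (n + 1)))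
    omega
  have : FiniteDimensional ℝ (Euc n) := Module.finite_of_finrank_pos (by omega)
  have hd : Data ρ.to α (h : Sp (Euc n) → X) := ⟨hc, equi_of he, inf_of hE hc hne⟩
  exact ⟨hd.homeo hE hα hgf, hd.lattice hE hα hgf⟩

end Pool.Agent.TH631.RC
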