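import Mathlib

/-!
# Geometrically finite convergence actions and actions on hyperbolic space: definitions
-/

set_option autoImplicit false

open Filter Topology Set

namespace Pool.Agent.TH631.RC

/-- An action of the group `G` on `X` by homeomorphisms. -/
structure Action (G : Type) [Group G] (X : Type) [TopologicalSpace X] where
  map : G → X → X
  cont : ∀ g, Continuous (map g)
  map_one : ∀ x, map 1 x = x
  map_mul : ∀ g h x, map (g * h) x = map g (map h x)

section Conv

variable {G : Type} [Group G] {X : Type} [TopologicalSpace X]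

/-- Convergence action: every sequence of elements of `G` that leaves all finite sets has a
subsequence that converges to a constant `p`, locally uniformly off a point `q`. -/
def IsConvergence (α : Action G X) : Prop :=
  ∀ g : ℕ → G, Tendsto g atTop cofinite → ∃ φ : ℕ → ℕ, StrictMono φ ∧ ∃ p q : X,
    ∀ U ∈ 𝓝 p, ∀ W ∈ 𝓝 q, ∀ᶠ n in atTop, ∀ x, x ∉ W → α.map (g (φ n)) x ∈ U

/-- `y` is a conical limit point: for some sequence of elements of `G` that leaves all finite sets
the images of all points `w ≠ y` converge to one point `b`, and the images of `y` converge to a point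
`a ≠ b`. -/
def Conical (α : Action G X) (y : X) : Prop :=
  ∃ (g : ℕ → G) (a b : X), Tendsto g atTop cofinite ∧ a ≠ b ∧
    Tendsto (fun k => α.map (g k) y) atTop (𝓝 a) ∧
    ∀ w, w ≠ y → Tendsto (fun k => α.map (g k) w) atTop (𝓝 b)

/-- `y` is a bounded parabolic point with the group `P`: `P` fixes `y` and acts properly
discontinuously and cocompactly on the complement of `y`. -/
structure BoundedParabolic (α : Action G X) (y : X) (P : Subgroup G) : Prop where
  fixes : ∀ g ∈ P, α.map g y = y
  proper : ∀ K : Set X, IsCompact K → y ∉ K → {g : G | g ∈ P ∧ ∃ w ∈ K, α.map g w ∈ K}.Finite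
  cocompact : ∃ K : Set X, IsCompact K ∧ y ∉ K ∧ ∀ w, w ≠ y → ∃ g ∈ P, α.map g w ∈ K

/-- The group `P` is a finite union of cosets of an abelian subgroup that contains `ℤ × ℤ` (for
instance `P` is virtually `ℤ ^ r`, `r ≥ 2`). -/
def VirtAbelian (P : Subgroup G) : Prop :=
  ∃ (A : Subgroup G) (F : Finset G), A ≤ P ∧ (∀ a ∈ A, ∀ b ∈ A, a * b = b * a) ∧
    (∀ g ∈ P, ∃ a ∈ A, ∃ f ∈ F, g = a * f) ∧
    ∃ a₁ ∈ A, ∃ a₂ ∈ A, Function.Injective (fun z : ℤ × ℤ => a₁ ^ z.1 * a₂ ^ z.2)

/-- Geometrically finite action with peripheral groups that are virtually abelian of rank at least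
two: every point is conical or bounded parabolic. -/
def GeomFinite (α : Action G X) : Prop :=
  ∀ y, Conical α y ∨ ∃ P, BoundedParabolic α y P ∧ VirtAbelian P

end Conv

section Lor

variable {E : Type} [NormedAddCommGroup E] [InnerProductSpace ℝ E]

/-- The Lorentz form on `ℝ × E`. -/
noncomputable def lor (v w : ℝ × E) : ℝ := v.1 * w.1 - inner ℝ v.2 w.2

/-- The light-like vector `(1, x)`, `x` in the unit sphere. -/
def light (x : E) : ℝ × E := (1, x)

/-- Hyperbolic space, hyperboloid model. -/
def HypSpace (E : Type) [NormedAddCommGroup E] [InnerProductSpace ℝ E] : Set (ℝ × E) :=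
  {v | lor v v = 1 ∧ 0 < v.1}

/-- An action of `G` by isometries of hyperbolic space: by linear maps which preserve the Lorentz
form and the sheet `HypSpace E`. It is not supposed to be discrete or faithful. -/
structure HypAction (G : Type) [Group G] (E : Type) [NormedAddCommGroup E]
    [InnerProductSpace ℝ E] where
  map : G → (ℝ × E) →ₗ[ℝ] (ℝ × E)
  map_one : ∀ v, map 1 v = v
  map_mul : ∀ g h v, map (g * h) v = map g (map h v)
  lor_map : ∀ g v w, lor (map g v) (map g w) = lor v w
  pos : ∀ g, 0 < (map g (1, 0)).1

variable {G : Type} [Group G]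

/-- The map `h` from the sphere at infinity of hyperbolic space to `X` is equivariant: if `g` maps
the point `x` at infinity to `x'`, then `h x' = g (h x)`. -/
def Equivariant {X : Type} [TopologicalSpace X] (ρ : HypAction G E) (α : Action G X)
    (h : Metric.sphere (0 : E) 1 → X) : Prop :=
  ∀ (g : G) (x x' : Metric.sphere (0 : E) 1) (c : ℝ), 0 < c →
    ρ.map g (light (x : E)) = c • light (x' : E) → h x' = α.map g (h x)

/-- The action on hyperbolic space is properly discontinuous. -/
def ActsProperly (ρ : HypAction G E) : Prop :=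
  ∀ K ⊆ HypSpace E, IsCompact K → {g : G | ∃ v ∈ K, ρ.map g v ∈ K}.Finite

/-- The point `c` at infinity is a cusp of full rank of the action: a subgroup `P` of `G` fixes the
light-like vector of `c` (so it preserves every horosphere centred at `c`) and acts cocompactly on the
complement of `c` in the sphere at infinity. -/
def FullCusp (ρ : HypAction G E) (c : Metric.sphere (0 : E) 1) : Prop :=
  ∃ P : Subgroup G, (∀ g ∈ P, ρ.map g (light (c : E)) = light (c : E)) ∧
    ∃ K : Set (Metric.sphere (0 : E) 1), IsCompact K ∧ c ∉ K ∧
      ∀ w, w ≠ c → ∃ g ∈ P, ∃ w' ∈ K, ∃ s : ℝ, 0 < s ∧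
        ρ.map g (light (w : E)) = s • light (w' : E)

/-- The action on hyperbolic space is that of a lattice: it is properly discontinuous and for every
`κ > 0` there are finitely many points `c` at infinity, cusps of full rank, such that the action is
cocompact on the complement of the translates of the horoballs `lor v (light c) < κ` centred at these
points: every point `v` of hyperbolic space which is in no translate of these horoballs has a translate
in the ball of points with time coordinate at most `R`. -/
def IsLattice (ρ : HypAction G E) : Prop :=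
  ActsProperly ρ ∧ ∀ κ : ℝ, 0 < κ → ∃ C : Finset (Metric.sphere (0 : E) 1),
    (∀ c ∈ C, FullCusp ρ c) ∧ ∃ R : ℝ, ∀ v ∈ HypSpace E,
      (∀ g : G, ∀ c ∈ C, κ ≤ lor (ρ.map g v) (light (c : E))) → ∃ g : G, (ρ.map g v).1 ≤ R

end Lor

end Pool.Agent.TH631.RC
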