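import Pool.Agent.TH631.RC.Par2

/-!
# The theorem
-/

set_option autoImplicit false

open Filter Topology Set

namespace Pool.Agent.TH631.RC

variable {E : Type} [NormedAddCommGroup E] [InnerProductSpace ℝ E]
variable {G : Type} [Group G] {ρ : HypAction G E}
variable {X : Type} [MetricSpace X] {α : Action G X}

theorem hyp_sq {v : ℝ × E} (hv : v ∈ HypSpace E) : v.1 ^ 2 - ‖v.2‖ ^ 2 = 1 := by
  have h := hv.1
  simp only [lor, real_inner_self_eq_norm_sq] at h
  linarith [sq v.1]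

theorem hyp_one_le {v : ℝ × E} (hv : v ∈ HypSpace E) : 1 ≤ v.1 := by
  have h := hyp_sq hv
  have h1 := hv.2
  nlinarith [sq_nonneg ‖v.2‖]

theorem hyp_lt {v : ℝ × E} (hv : v ∈ HypSpace E) : ‖v.2‖ < v.1 := by
  have h := hyp_sq hv
  have h1 := hv.2
  nlinarith [norm_nonneg v.2]

theorem map_mem {v : ℝ × E} (hv : v ∈ HypSpace E) (g : G) : ρ.map g v ∈ HypSpace E := by
  refine ⟨by rw [ρ.lor_map]; exact hv.1, ?_⟩
  rw [fst_map]
  have h1 := real_inner_le_norm v.2 (U ρ g⁻¹)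
  have h2 := U_lt (ρ := ρ) g⁻¹
  rw [T_inv] at h2
  have h3 := hyp_lt hv
  have h4 : ‖v.2‖ * ‖U ρ g⁻¹‖ < v.1 * T ρ g :=
    mul_lt_mul'' h3 h2 (norm_nonneg _) (norm_nonneg _)
  nlinarith

theorem properly (hfin : ∀ R : ℝ, {g : G | T ρ g ≤ R}.Finite) : ActsProperly ρ := by
  intro K hK hKc
  obtain ⟨C, hC⟩ := (hKc.image continuous_fst).bddAbove
  have hC' : ∀ v ∈ K, v.1 ≤ C := fun v hv => hC ⟨v, hv, rfl⟩
  refine (hfin (2 * C ^ 2)).subset ?_
  rintro g ⟨v, hv, hgv⟩
  change T ρ g ≤ 2 * C ^ 2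
  set w := ρ.map g v with hw
  have h1 : lor w (T ρ g, U ρ g) = v.1 := by
    rw [hw, ← map_o, ρ.lor_map, lor_o]
  have h2 : w.1 * T ρ g - inner ℝ w.2 (U ρ g) = v.1 := h1
  have h3 := real_inner_le_norm w.2 (U ρ g)
  have h4 := U_lt (ρ := ρ) g
  have h5 := hyp_sq (hK hgv)
  have h6 := hyp_lt (hK hgv)
  have h7 := hC' v hv
  have h8 := hC' w hgv
  have h9 := hyp_one_le (hK hgv)
  have hT := T_pos (ρ := ρ) g
  have h10 : ‖w.2‖ * ‖U ρ g‖ ≤ ‖w.2‖ * T ρ g := mul_le_mul_of_nonneg_left h4.le (norm_nonneg _)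
  have h11 : T ρ g * (w.1 - ‖w.2‖) ≤ C := by nlinarith
  have h12 : (w.1 - ‖w.2‖) * (w.1 + ‖w.2‖) = 1 := by nlinarith
  have h13 : 0 < w.1 - ‖w.2‖ := by linarith
  have h14 : w.1 + ‖w.2‖ ≤ 2 * C := by linarith
  have h15 : T ρ g = T ρ g * (w.1 - ‖w.2‖) * (w.1 + ‖w.2‖) := by rw [mul_assoc, h12, mul_one]
  have h16 : 0 ≤ T ρ g * (w.1 - ‖w.2‖) := by positivity
  calc T ρ g = T ρ g * (w.1 - ‖w.2‖) * (w.1 + ‖w.2‖) := h15
    _ ≤ C * (2 * C) := by
        refine mul_le_mul h11 h14 ?_ ?_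
        · linarith [norm_nonneg w.2]
        · linarith
    _ = 2 * C ^ 2 := by ring

/-- The reduction near a point at infinity. -/
def Reducible (ρ : HypAction G E) (κ₀ : ℝ) (O : Set (ℝ × E)) (C : Finset (Sp E)) : Prop :=
  ∀ v ∈ HypSpace E, (v.1)⁻¹ • v ∈ O → (∀ c ∈ C, κ₀ ≤ lor v (light (c : E))) →
    ∃ g : G, (ρ.map g v).1 ≤ v.1 / 2

theorem reducible_of_tt [FiniteDimensional ℝ E] {g : G} {x : Sp E} (hx : tt ρ g x < 1 / 2)
    (κ₀ : ℝ) : ∃ O : Set (ℝ × E), IsOpen O ∧ light (x : E) ∈ O ∧ Reducible ρ κ₀ O ∅ := by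
  refine ⟨{u | (ρ.map g u).1 < 1 / 2}, ?_, hx, ?_⟩
  · exact isOpen_lt (continuous_fst.comp (continuous_map g)) continuous_const
  · intro v hv hu _
    refine ⟨g, ?_⟩
    have h1 : (ρ.map g ((v.1)⁻¹ • v)).1 < 1 / 2 := hu
    rw [map_smul, Prod.smul_fst, smul_eq_mul, inv_mul_lt_iff₀ hv.2] at h1
    linarith

theorem reducible_of_cusp {P : Subgroup G} {c : Sp E}
    (hfix : ∀ g ∈ P, F ρ g c = c ∧ tt ρ g c = 1) {K : Set (Sp E)} (hK : IsCompact K)
    (hcK : c ∉ K) (hKP : ∀ w, w ≠ c → ∃ g ∈ P, F ρ g w ∈ K) {κ₀ : ℝ} (hκ₀ : 0 < κ₀) :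
    ∃ O : Set (ℝ × E), IsOpen O ∧ light (c : E) ∈ O ∧ Reducible ρ κ₀ O {c} := by
  have hcont : Continuous fun w : Sp E => 1 - inner ℝ (w : E) (c : E) := by fun_prop
  obtain ⟨κ, hκ, hκK⟩ := hK.exists_forall_le' hcont.continuousOn (a := 0)
    (fun w hw => one_sub_inner_pos fun h0 => hcK (h0 ▸ hw))
  set D := 1 / κ + 1 / (2 * κ₀ ^ 2) with hD
  have hDpos : 0 < D := by positivity
  refine ⟨{u | lor u (light (c : E)) < 1 / (2 * D)}, ?_, ?_, ?_⟩
  · refine isOpen_lt ?_ continuous_const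
    exact continuous_lor.comp (continuous_id.prodMk continuous_const)
  · change lor (light (c : E)) (light (c : E)) < _
    rw [lor_light, inner_self_one, sub_self]; positivity
  · intro v hv hu hb
    have hb := hb c (Finset.mem_singleton_self c)
    set b := lor v (light (c : E)) with hbdef
    have hb0 : 0 < b := by linarith
    have h1 : b * (2 * D) < v.1 := by
      have h0 : lor ((v.1)⁻¹ • v) (light (c : E)) < 1 / (2 * D) := hu
      rw [lor_smul_left, inv_mul_lt_iff₀ hv.2, ← hbdef, mul_one_div,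
        lt_div_iff₀ (by positivity)] at h0
      exact h0
    have hv1 := hyp_one_le hv
    set ν := 1 / (2 * b) with hν
    have hν0 : 0 < ν := by positivity
    have hνb' : 2 * ν * b = 1 := by rw [hν]; field_simp
    have hbeq : b = v.1 - inner ℝ v.2 (c : E) := by simp [hbdef, lor, light]
    set μ := v.1 - ν with hμ
    have hμ0 : 0 < μ := by
      have i1 := real_inner_le_norm v.2 (c : E)
      rw [nrm, mul_one] at i1
      have i2 := hyp_sq hv
      have i3 := hyp_lt hv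
      have i4 : 1 < b * (2 * v.1) := by nlinarith [norm_nonneg v.2]
      have i5 : ν < v.1 := by
        rw [hν, div_lt_iff₀ (by positivity)]; linarith
      linarith
    have hnorm : ‖v.2 - ν • (c : E)‖ = μ := by
      have e1 : ‖v.2 - ν • (c : E)‖ ^ 2 = μ ^ 2 := by
        rw [@norm_sub_sq_real, real_inner_smul_right, norm_smul, nrm, Real.norm_eq_abs,
          abs_of_pos hν0]
        have e2 := hyp_sq hv
        nlinarith
      rwa [sq_eq_sq₀ (norm_nonneg _) hμ0.le] at e1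
    let w : Sp E := ⟨μ⁻¹ • (v.2 - ν • (c : E)), by
      rw [mem_sphere_zero_iff_norm, norm_smul, norm_inv, Real.norm_eq_abs, abs_of_pos hμ0, hnorm,
        inv_mul_cancel₀ hμ0.ne']⟩
    have hvw : v = μ • light (w : E) + ν • light (c : E) := by
      refine Prod.ext ?_ ?_
      · simp [light, hμ]
      · simp only [light, w, Prod.snd_add, Prod.smul_snd, smul_smul, mul_inv_cancel₀ hμ0.ne',
          one_smul]
        abel
    have hwc : w ≠ c := by
      intro h0
      have h2 : v = (μ + ν) • light (c : E) := by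
        rw [hvw, h0, add_smul]
      have h3 := hv.1
      rw [h2, lor_smul_left, lor_smul_right, lor_light, inner_self_one] at h3
      norm_num at h3
    obtain ⟨g, hg, hgK⟩ := hKP w hwc
    refine ⟨g, ?_⟩
    obtain ⟨e1, e2⟩ := hfix g hg
    have e3 : (ρ.map g v).1 = μ * tt ρ g w + ν := by
      rw [hvw, map_add, map_smul, map_smul]
      have a1 : (ρ.map g (light (w : E))).1 = tt ρ g w := rfl
      have a2 : (ρ.map g (light (c : E))).1 = 1 := e2
      simp only [Prod.fst_add, Prod.smul_fst, smul_eq_mul, a1, a2, mul_one]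
    have e4 := key (ρ := ρ) g w c
    rw [e1, e2, mul_one] at e4
    have e5 : b = μ * (1 - inner ℝ (w : E) (c : E)) := by
      rw [hbdef, hvw, lor_add_left, lor_smul_left, lor_smul_left, lor_light, lor_light,
        inner_self_one]
      ring
    have e6 : μ * tt ρ g w * κ ≤ b := by
      have := hκK _ hgK
      rw [e5, ← e4]
      have p := tt_pos (ρ := ρ) g w
      have : μ * tt ρ g w * κ ≤ μ * tt ρ g w * (1 - inner ℝ (F ρ g w : E) (c : E)) :=
        mul_le_mul_of_nonneg_left this (by positivity)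
      linarith
    have e7 : μ * tt ρ g w ≤ b * (1 / κ) := by
      rw [mul_one_div, le_div_iff₀ hκ]; exact e6
    rw [e3]
    have e8 : ν ≤ b * (1 / (2 * κ₀ ^ 2)) := by
      rw [hν, mul_one_div, div_le_div_iff₀ (by positivity) (by positivity)]
      nlinarith
    have e9 : b * D = b * (1 / κ) + b * (1 / (2 * κ₀ ^ 2)) := by rw [hD]; ring
    nlinarith

theorem close_light {v : ℝ × E} (hv : v ∈ HypSpace E) {δ : ℝ} (hδ : 0 < δ)
    (h1 : 1 < v.1) (h2 : 1 / δ < v.1) : ∃ x : Sp E, dist ((v.1)⁻¹ • v) (light (x : E)) < δ := by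
  have hsq := hyp_sq hv
  have hn : 0 < ‖v.2‖ := by
    by_contra h0
    have : ‖v.2‖ = 0 := le_antisymm (not_lt.1 h0) (norm_nonneg _)
    rw [this] at hsq
    nlinarith
  have hv0 := hv.2
  refine ⟨⟨‖v.2‖⁻¹ • v.2, by
    rw [mem_sphere_zero_iff_norm, norm_smul, norm_inv, norm_norm, inv_mul_cancel₀ hn.ne']⟩, ?_⟩
  rw [Prod.dist_eq, max_lt_iff]
  constructor
  · simp only [Prod.smul_fst, light, smul_eq_mul, inv_mul_cancel₀ hv0.ne', dist_self]
    exact hδ
  · simp only [Prod.smul_snd, light]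
    rw [dist_eq_norm, ← sub_smul, norm_smul, Real.norm_eq_abs]
    have e1 : |(v.1)⁻¹ - ‖v.2‖⁻¹| * ‖v.2‖ = (v.1 - ‖v.2‖) / v.1 := by
      have h3 := hyp_lt hv
      have h4 : (v.1)⁻¹ < ‖v.2‖⁻¹ := (inv_lt_inv₀ hv0 hn).2 h3
      rw [abs_of_neg (by linarith)]
      field_simp
      ring
    rw [e1]
    have e2 : v.1 - ‖v.2‖ ≤ 1 / v.1 := by
      rw [le_div_iff₀ hv0]
      nlinarith [hyp_lt hv, norm_nonneg v.2]
    have e3 : 1 / v.1 < δ := by
      rw [div_lt_iff₀ hv0]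
      rw [div_lt_iff₀ hδ] at h2
      linarith
    have e4 : (v.1 - ‖v.2‖) / v.1 ≤ v.1 - ‖v.2‖ :=
      div_le_self (by linarith [hyp_lt hv]) h1.le
    linarith

theorem Data.lattice [FiniteDimensional ℝ E] [CompactSpace X] (hE : 1 < Module.finrank ℝ E)
    {h : Sp E → X} (hd : Data ρ α h) (hα : IsConvergence α) (hgf : GeomFinite α) :
    IsLattice ρ := by
  classical
  refine ⟨properly (hd.finite hα), fun κ₀ hκ₀ => ?_⟩
  -- local reductions
  have hloc : ∀ x : Sp E, ∃ O : Set (ℝ × E), IsOpen O ∧ light (x : E) ∈ O ∧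
      ∃ C : Finset (Sp E), (∀ c ∈ C, FullCusp ρ c) ∧ Reducible ρ κ₀ O C := by
    intro x
    rcases hgf (h x) with hc | ⟨P, hP, hV⟩
    · obtain ⟨g, hg⟩ := (hd.conical hα hc).2 x rfl
      obtain ⟨O, h1, h2, h3⟩ := reducible_of_tt hg κ₀
      exact ⟨O, h1, h2, ∅, by simp, h3⟩
    · obtain ⟨c, hfib, hfix, ⟨K, hK, hcK, hKP⟩, -⟩ := hd.parabolic hE hα hP hV
      have hxc : x = c := (hfib x).1 rfl
      obtain ⟨O, h1, h2, h3⟩ := reducible_of_cusp hfix hK hcK hKP hκ₀
      refine ⟨O, h1, hxc ▸ h2, {c}, ?_, h3⟩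
      intro c' hc'
      rw [Finset.mem_singleton] at hc'
      subst hc'
      refine ⟨P, fun g hg => ?_, K, hK, hcK, fun w hw => ?_⟩
      · rw [map_light, (hfix g hg).1, (hfix g hg).2, one_smul]
      · obtain ⟨g, hg, hgK⟩ := hKP w hw
        exact ⟨g, hg, F ρ g w, hgK, tt ρ g w, tt_pos g w, map_light g w⟩
  choose O hO hxO C hC hRed using hloc
  obtain ⟨t, -, ht⟩ := (isCompact_univ (X := Sp E)).elim_nhds_subcover
    (fun x => {x' : Sp E | light (x' : E) ∈ O x})
    (fun x _ => ((hO x).preimage continuous_light).mem_nhds (hxO x))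
  have hcover : range (fun x : Sp E => light (x : E)) ⊆ ⋃ x ∈ t, O x := by
    rintro _ ⟨x', rfl⟩
    obtain ⟨x, hx, hx'⟩ := mem_iUnion₂.1 (ht (mem_univ x'))
    exact mem_iUnion₂.2 ⟨x, hx, hx'⟩
  have hopen : IsOpen (⋃ x ∈ t, O x) := isOpen_biUnion fun x _ => hO x
  obtain ⟨δ, hδ, hthick⟩ :=
    (isCompact_range (continuous_light (E := E))).exists_thickening_subset_open hopen hcover
  refine ⟨t.biUnion C, ?_, max 1 (1 / δ), ?_⟩
  · intro c hc
    obtain ⟨x, -, hx⟩ := Finset.mem_biUnion.1 hc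
    exact hC x c hx
  · intro v hv hvC
    by_contra hcon
    push Not at hcon
    have hbdd : BddBelow (range fun g : G => (ρ.map g v).1) :=
      ⟨1, by rintro _ ⟨g, rfl⟩; exact hyp_one_le (map_mem hv g)⟩
    have hm : 1 ≤ ⨅ g : G, (ρ.map g v).1 := le_ciInf fun g => hyp_one_le (map_mem hv g)
    obtain ⟨g, hg⟩ := exists_lt_of_ciInf_lt
      (show (⨅ g : G, (ρ.map g v).1) < 2 * ⨅ g : G, (ρ.map g v).1 by linarith)
    have hg1 := hcon g
    rw [max_lt_iff] at hg1
    obtain ⟨x', hx'⟩ := close_light (map_mem hv g) hδ hg1.1 hg1.2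
    have h1 : ((ρ.map g v).1)⁻¹ • ρ.map g v ∈ ⋃ x ∈ t, O x :=
      hthick (Metric.mem_thickening_iff.2 ⟨_, ⟨x', rfl⟩, hx'⟩)
    obtain ⟨x, hx, hxO'⟩ := mem_iUnion₂.1 h1
    obtain ⟨g', hg'⟩ := hRed x _ (map_mem hv g) hxO'
      (fun c hc => hvC g c (Finset.mem_biUnion.2 ⟨x, hx, hc⟩))
    rw [← ρ.map_mul] at hg'
    have h2 := ciInf_le hbdd (g' * g)
    linarith

theorem Data.homeo [FiniteDimensional ℝ E] [CompactSpace X] (hE : 1 < Module.finrank ℝ E)
    {h : Sp E → X} (hd : Data ρ α h) (hα : IsConvergence α) (hgf : GeomFinite α) :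
    IsHomeomorph h := by
  rw [isHomeomorph_iff_continuous_bijective]
  refine ⟨hd.cont, fun x x' hxx => ?_, fun z => ?_⟩
  · rcases hgf (h x) with hc | ⟨P, hP, hV⟩
    · exact (hd.conical hα hc).1 x x' rfl hxx.symm
    · obtain ⟨c, hfib, -⟩ := hd.parabolic hE hα hP hV
      exact ((hfib x).1 rfl).trans ((hfib x').1 hxx.symm).symm
  · by_contra hz
    have hYc : IsCompact (range h) := isCompact_range hd.cont
    have hinv : ∀ g : G, ∀ y ∈ range h, α.map g y ∈ range h := by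
      rintro g _ ⟨x, rfl⟩
      exact ⟨F ρ g x, hd.equi g x⟩
    have hzY : z ∉ range h := hz
    rcases hgf z with ⟨g, a, b, hg, hab, hza, hwb⟩ | ⟨P, hP, hV⟩
    · obtain ⟨φ, hφ, p, q, hpq⟩ := hα g hg
      have hpt : ∀ w, w ≠ q → Tendsto (fun k => α.map (g (φ k)) w) atTop (𝓝 p) := by
        intro w hw
        rw [tendsto_def]
        intro V hV
        filter_upwards [hpq V hV {w}ᶜ (isOpen_compl_singleton.mem_nhds (by simpa using hw.symm))]
          with n hn
        exact hn w (by simp)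
      have hpb : p = b := by
        obtain ⟨w, hwY, hw⟩ := (hd.inf.sdiff (Set.toFinite {q})).nonempty
        have h1 : w ≠ q := fun h0 => hw (by simp [h0])
        have h2 : w ≠ z := fun h0 => hzY (h0 ▸ hwY)
        exact tendsto_nhds_unique (hpt w h1) ((hwb w h2).comp hφ.tendsto_atTop)
      have hqz : q = z := by
        by_contra hne
        have h1 := hpt z (fun h0 => hne h0.symm)
        exact hab ((tendsto_nhds_unique (hza.comp hφ.tendsto_atTop) h1).trans hpb)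
      have hsub : range h ⊆ {b} := by
        intro y hy
        by_contra hyb
        have hV : ({y}ᶜ : Set X) ∈ 𝓝 p :=
          isOpen_compl_singleton.mem_nhds (by
            rw [hpb]; simpa using fun h0 => hyb (by simp [h0]))
        have hW : (range h)ᶜ ∈ 𝓝 q := by
          rw [hqz]; exact hYc.isClosed.isOpen_compl.mem_nhds hzY
        obtain ⟨n, hn⟩ := (hpq _ hV _ hW).exists
        have h1 := hn (α.map (g (φ n))⁻¹ y) (fun h0 => h0 (hinv _ y hy))
        rw [act_inv'] at h1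
        exact h1 rfl
      exact hd.inf ((Set.toFinite {b}).subset hsub)
    · obtain ⟨-, -, -, -, g, hgP, hginj⟩ := hd.parabolic hE hα hP hV
      have hf := hP.proper (range h) hYc hzY
      obtain ⟨y, hy⟩ := hd.inf.nonempty
      exact (infinite_range_of_injective hginj) (hf.subset (by
        rintro _ ⟨k, rfl⟩
        exact ⟨hgP k, y, hy, hinv _ y hy⟩))

end Pool.Agent.TH631.RC
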