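import Pool.Agent.TH631.RC.Defs

/-!
# Lorentz geometry of an action on hyperbolic space
-/

set_option autoImplicit false

open Filter Topology Set

namespace Pool.Agent.TH631.RC

variable {E : Type} [NormedAddCommGroup E] [InnerProductSpace ℝ E]

/-- The sphere at infinity. -/
abbrev Sp (E : Type) [NormedAddCommGroup E] [InnerProductSpace ℝ E] : Type :=
  Metric.sphere (0 : E) 1

theorem nrm (x : Sp E) : ‖(x : E)‖ = 1 := by
  have := x.2
  rwa [mem_sphere_zero_iff_norm] at this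

theorem inner_self_one (x : Sp E) : inner ℝ (x : E) (x : E) = 1 := by
  rw [real_inner_self_eq_norm_sq, nrm]; norm_num

theorem lor_comm (v w : ℝ × E) : lor v w = lor w v := by
  unfold lor; rw [mul_comm, real_inner_comm]

theorem lor_add_left (u v w : ℝ × E) : lor (u + v) w = lor u w + lor v w := by
  simp only [lor, Prod.fst_add, Prod.snd_add, inner_add_left]; ring

theorem lor_smul_left (c : ℝ) (v w : ℝ × E) : lor (c • v) w = c * lor v w := by
  simp only [lor, Prod.smul_fst, Prod.smul_snd, real_inner_smul_left, smul_eq_mul]; ring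

theorem lor_add_right (u v w : ℝ × E) : lor u (v + w) = lor u v + lor u w := by
  rw [lor_comm, lor_add_left, lor_comm v, lor_comm w]

theorem lor_smul_right (c : ℝ) (v w : ℝ × E) : lor v (c • w) = c * lor v w := by
  rw [lor_comm, lor_smul_left, lor_comm w]

theorem continuous_lor : Continuous fun p : (ℝ × E) × (ℝ × E) => lor p.1 p.2 := by
  unfold lor
  fun_prop

theorem lor_light (x y : Sp E) : lor (light (x : E)) (light (y : E)) = 1 - inner ℝ (x : E) (y : E) := by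
  simp [lor, light]

theorem lor_o (v : ℝ × E) : lor v (1, 0) = v.1 := by
  simp [lor]

theorem one_sub_inner (x y : Sp E) :
    1 - inner ℝ (x : E) (y : E) = ‖(x : E) - (y : E)‖ ^ 2 / 2 := by
  rw [@norm_sub_sq_real, nrm, nrm]; ring

theorem one_sub_inner_nonneg (x y : Sp E) : 0 ≤ 1 - inner ℝ (x : E) (y : E) := by
  rw [one_sub_inner]; positivity

theorem one_sub_inner_pos {x y : Sp E} (h : x ≠ y) : 0 < 1 - inner ℝ (x : E) (y : E) := by
  rw [one_sub_inner]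
  have : (x : E) - (y : E) ≠ 0 := fun h0 => h (Subtype.ext (sub_eq_zero.1 h0))
  have := norm_pos_iff.2 this
  positivity

theorem eq_of_inner {x y : Sp E} (h : 1 - inner ℝ (x : E) (y : E) = 0) : x = y := by
  by_contra hne
  exact absurd h (one_sub_inner_pos hne).ne'

variable {G : Type} [Group G] (ρ : HypAction G E)

/-- `cosh` of the displacement of the base point. -/
noncomputable def T (g : G) : ℝ := (ρ.map g (1, 0)).1
/-- The space component of the image of the base point. -/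
noncomputable def U (g : G) : E := (ρ.map g (1, 0)).2
/-- The factor by which `g` multiplies the light vector of `x`. -/
noncomputable def tt (g : G) (x : Sp E) : ℝ := (ρ.map g (light (x : E))).1

variable {ρ}

theorem T_pos (g : G) : 0 < T ρ g := ρ.pos g

theorem map_o (g : G) : ρ.map g (1, 0) = (T ρ g, U ρ g) := rfl

theorem T_sq (g : G) : T ρ g ^ 2 - ‖U ρ g‖ ^ 2 = 1 := by
  have h := ρ.lor_map g (1, 0) (1, 0)
  rw [map_o] at h
  simp only [lor, real_inner_self_eq_norm_sq, norm_zero] at h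
  linarith [h, sq (T ρ g)]

theorem U_lt (g : G) : ‖U ρ g‖ < T ρ g := by
  have h := T_sq (ρ := ρ) g
  have h1 := T_pos (ρ := ρ) g
  nlinarith [norm_nonneg (U ρ g)]

theorem one_le_T (g : G) : 1 ≤ T ρ g := by
  have h := T_sq (ρ := ρ) g
  have h1 := T_pos (ρ := ρ) g
  nlinarith [norm_nonneg (U ρ g), sq_nonneg ‖U ρ g‖]

theorem map_inv (g : G) (v : ℝ × E) : ρ.map g⁻¹ (ρ.map g v) = v := by
  rw [← ρ.map_mul, inv_mul_cancel, ρ.map_one]

theorem map_inv' (g : G) (v : ℝ × E) : ρ.map g (ρ.map g⁻¹ v) = v := by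
  rw [← ρ.map_mul, mul_inv_cancel, ρ.map_one]

theorem lor_adj (g : G) (v w : ℝ × E) : lor (ρ.map g v) w = lor v (ρ.map g⁻¹ w) := by
  rw [← ρ.lor_map g v (ρ.map g⁻¹ w), map_inv']

theorem T_inv (g : G) : T ρ g⁻¹ = T ρ g := by
  have h1 : T ρ g = lor (ρ.map g (1, 0)) (1, 0) := by rw [lor_o]; rfl
  rw [h1, lor_adj, lor_comm, lor_o]; rfl

theorem fst_map (g : G) (v : ℝ × E) :
    (ρ.map g v).1 = T ρ g * v.1 - inner ℝ v.2 (U ρ g⁻¹) := by
  rw [← lor_o (ρ.map g v), lor_adj, map_o, T_inv]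
  simp only [lor]; ring

theorem tt_eq (g : G) (x : Sp E) : tt ρ g x = T ρ g - inner ℝ (x : E) (U ρ g⁻¹) := by
  rw [tt, fst_map]; simp [light]

theorem tt_pos (g : G) (x : Sp E) : 0 < tt ρ g x := by
  rw [tt_eq]
  have h1 := real_inner_le_norm (x : E) (U ρ g⁻¹)
  have h2 := U_lt (ρ := ρ) g⁻¹
  rw [T_inv] at h2
  rw [nrm, one_mul] at h1
  linarith

theorem null_map (g : G) (x : Sp E) : ‖(ρ.map g (light (x : E))).2‖ = tt ρ g x := by
  have h := ρ.lor_map g (light (x : E)) (light (x : E))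
  rw [lor_light, inner_self_one] at h
  have h2 : tt ρ g x ^ 2 = ‖(ρ.map g (light (x : E))).2‖ ^ 2 := by
    simp only [lor, real_inner_self_eq_norm_sq] at h
    unfold tt
    linarith [sq (ρ.map g (light (x : E))).1]
  have h3 := tt_pos (ρ := ρ) g x
  nlinarith [norm_nonneg (ρ.map g (light (x : E))).2]

variable (ρ) in
/-- The action on the sphere at infinity. -/
noncomputable def F (g : G) (x : Sp E) : Sp E :=
  ⟨(tt ρ g x)⁻¹ • (ρ.map g (light (x : E))).2, by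
    rw [mem_sphere_zero_iff_norm, norm_smul, norm_inv, null_map, Real.norm_eq_abs,
      abs_of_pos (tt_pos g x), inv_mul_cancel₀ (tt_pos g x).ne']⟩

theorem map_light (g : G) (x : Sp E) :
    ρ.map g (light (x : E)) = tt ρ g x • light (F ρ g x : E) := by
  have h := (tt_pos (ρ := ρ) g x).ne'
  refine Prod.ext ?_ ?_
  · simp [light, tt]
  · simp only [light, F, Prod.smul_snd, smul_smul, mul_inv_cancel₀ h, one_smul]

theorem map_light_unique {g : G} {x x' : Sp E} {c : ℝ}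
    (h : ρ.map g (light (x : E)) = c • light (x' : E)) : c = tt ρ g x ∧ x' = F ρ g x := by
  have h1 : tt ρ g x = c := by
    unfold tt; rw [h]; simp [light]
  refine ⟨h1.symm, ?_⟩
  apply Subtype.ext
  have h0 := (tt_pos (ρ := ρ) g x).ne'
  simp only [F]
  rw [h, h1]
  rw [h1] at h0
  simp only [light, Prod.smul_snd, smul_smul, inv_mul_cancel₀ h0, one_smul]

theorem tt_mul (g h : G) (x : Sp E) : tt ρ (g * h) x = tt ρ g (F ρ h x) * tt ρ h x ∧
    F ρ (g * h) x = F ρ g (F ρ h x) := by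
  have h1 : ρ.map (g * h) (light (x : E)) =
      (tt ρ g (F ρ h x) * tt ρ h x) • light (F ρ g (F ρ h x) : E) := by
    rw [ρ.map_mul, map_light h, map_smul, map_light g, smul_smul, mul_comm]
  have h2 := map_light_unique h1
  exact ⟨h2.1.symm, h2.2.symm⟩

theorem F_one (x : Sp E) : F ρ (1 : G) x = x := by
  have h : ρ.map 1 (light (x : E)) = (1 : ℝ) • light (x : E) := by rw [ρ.map_one, one_smul]
  exact (map_light_unique h).2.symm

theorem tt_one (x : Sp E) : tt ρ (1 : G) x = 1 := by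
  have h : ρ.map 1 (light (x : E)) = (1 : ℝ) • light (x : E) := by rw [ρ.map_one, one_smul]
  exact (map_light_unique h).1.symm

theorem F_inv (g : G) (x : Sp E) : F ρ g (F ρ g⁻¹ x) = x := by
  rw [← (tt_mul g g⁻¹ x).2, mul_inv_cancel, F_one]

theorem F_inv' (g : G) (x : Sp E) : F ρ g⁻¹ (F ρ g x) = x := by
  rw [← (tt_mul g⁻¹ g x).2, inv_mul_cancel, F_one]

theorem key (g : G) (x y : Sp E) :
    tt ρ g x * tt ρ g y * (1 - inner ℝ (F ρ g x : E) (F ρ g y : E)) =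
      1 - inner ℝ (x : E) (y : E) := by
  have h := ρ.lor_map g (light (x : E)) (light (y : E))
  rw [map_light g x, map_light g y, lor_smul_left, lor_smul_right, lor_light, lor_light] at h
  linarith

theorem key_o (g : G) (x : Sp E) :
    tt ρ g x * (T ρ g - inner ℝ (F ρ g x : E) (U ρ g)) = 1 := by
  have h := ρ.lor_map g (light (x : E)) (1, 0)
  rw [map_light g x, map_o, lor_smul_left, lor_o] at h
  simpa [lor, light] using h

theorem tt_ge (g : G) (x : Sp E) : 1 ≤ tt ρ g x * (2 * T ρ g) := by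
  have h := key_o (ρ := ρ) g x
  have h1 := abs_real_inner_le_norm (F ρ g x : E) (U ρ g)
  rw [nrm, one_mul] at h1
  have h2 := U_lt (ρ := ρ) g
  have h3 := neg_abs_le (inner ℝ (F ρ g x : E) (U ρ g))
  have h4 := tt_pos (ρ := ρ) g x
  nlinarith

theorem T_mul_le (g h : G) : T ρ (g * h) ≤ 2 * T ρ g * T ρ h := by
  have h1 : T ρ (g * h) = T ρ g * T ρ h - inner ℝ (U ρ h) (U ρ g⁻¹) := by
    change (ρ.map (g * h) (1, 0)).1 = _
    rw [ρ.map_mul, fst_map]; rfl
  have h2 := abs_real_inner_le_norm (U ρ h) (U ρ g⁻¹)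
  have h3 := neg_abs_le (inner ℝ (U ρ h) (U ρ g⁻¹))
  have h4 := U_lt (ρ := ρ) g⁻¹
  rw [T_inv] at h4
  have h5 := U_lt (ρ := ρ) h
  have h6 : ‖U ρ h‖ * ‖U ρ g⁻¹‖ ≤ T ρ h * T ρ g :=
    mul_le_mul h5.le h4.le (norm_nonneg _) (T_pos h).le
  rw [h1]; linarith

variable (ρ) in
/-- The sequence `g` attracts to `p` off `q` on the sphere at infinity. -/
structure Lim (g : ℕ → G) (p q : Sp E) : Prop where
  top : Tendsto (fun k => T ρ (g k)) atTop atTop
  left : Tendsto (fun k => (T ρ (g k))⁻¹ • U ρ (g k)) atTop (𝓝 (p : E))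
  right : Tendsto (fun k => (T ρ (g k))⁻¹ • U ρ (g k)⁻¹) atTop (𝓝 (q : E))

theorem Lim.comp {g : ℕ → G} {p q : Sp E} (h : Lim ρ g p q) {φ : ℕ → ℕ}
    (hφ : Tendsto φ atTop atTop) : Lim ρ (g ∘ φ) p q :=
  ⟨h.top.comp hφ, h.left.comp hφ, h.right.comp hφ⟩

theorem Lim.inv {g : ℕ → G} {p q : Sp E} (h : Lim ρ g p q) :
    Lim ρ (fun k => (g k)⁻¹) q p := by
  refine ⟨?_, ?_, ?_⟩
  · simpa only [T_inv] using h.top
  · simpa only [T_inv] using h.right
  · simpa only [T_inv, inv_inv] using h.left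

theorem norm_u_sq (g : G) : ‖(T ρ g)⁻¹ • U ρ g‖ ^ 2 = 1 - ((T ρ g)⁻¹) ^ 2 := by
  have h := T_sq (ρ := ρ) g
  have h0 := (T_pos (ρ := ρ) g).ne'
  rw [norm_smul, norm_inv, Real.norm_eq_abs, abs_of_pos (T_pos g)]
  field_simp
  linarith

theorem exists_lim_left [FiniteDimensional ℝ E] {g : ℕ → G}
    (h : Tendsto (fun k => T ρ (g k)) atTop atTop) :
    ∃ φ : ℕ → ℕ, StrictMono φ ∧ ∃ p : Sp E,
      Tendsto (fun k => (T ρ (g (φ k)))⁻¹ • U ρ (g (φ k))) atTop (𝓝 (p : E)) := by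
  have hb : ∀ k, (T ρ (g k))⁻¹ • U ρ (g k) ∈ Metric.closedBall (0 : E) 1 := by
    intro k
    rw [mem_closedBall_zero_iff]
    have := norm_u_sq (ρ := ρ) (g k)
    nlinarith [sq_nonneg (T ρ (g k))⁻¹, norm_nonneg ((T ρ (g k))⁻¹ • U ρ (g k))]
  obtain ⟨p, -, φ, hφ, hp⟩ := (isCompact_closedBall (0 : E) 1).tendsto_subseq hb
  refine ⟨φ, hφ, ⟨p, ?_⟩, hp⟩
  rw [mem_sphere_zero_iff_norm]
  have h1 : Tendsto (fun k => ‖(T ρ (g (φ k)))⁻¹ • U ρ (g (φ k))‖ ^ 2) atTop (𝓝 (‖p‖ ^ 2)) :=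
    (hp.norm).pow 2
  have h2 : Tendsto (fun k => 1 - ((T ρ (g (φ k)))⁻¹) ^ 2) atTop (𝓝 (1 - 0 ^ 2)) :=
    tendsto_const_nhds.sub (((tendsto_inv_atTop_zero.comp h).comp hφ.tendsto_atTop).pow 2)
  have h3 := tendsto_nhds_unique (h1.congr fun k => norm_u_sq _) h2
  have h4 : ‖p‖ ^ 2 = 1 := by rw [h3]; norm_num
  nlinarith [norm_nonneg p]

theorem exists_lim [FiniteDimensional ℝ E] {g : ℕ → G}
    (h : Tendsto (fun k => T ρ (g k)) atTop atTop) :
    ∃ φ : ℕ → ℕ, StrictMono φ ∧ ∃ p q : Sp E, Lim ρ (g ∘ φ) p q := by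
  obtain ⟨φ, hφ, p, hp⟩ := exists_lim_left h
  have h' : Tendsto (fun k => T ρ ((g (φ k))⁻¹)) atTop atTop := by
    simp only [T_inv]
    exact h.comp hφ.tendsto_atTop
  obtain ⟨ψ, hψ, q, hq⟩ := exists_lim_left h'
  refine ⟨φ ∘ ψ, hφ.comp hψ, p, q, (h.comp hφ.tendsto_atTop).comp hψ.tendsto_atTop,
    hp.comp hψ.tendsto_atTop, ?_⟩
  refine hq.congr fun k => ?_
  simp only [T_inv, Function.comp]

theorem aux1 {t a b : ℝ} (ht : t ≠ 0) (ha : a ≠ 0) (h : t * a * (t * b) = 1) :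
    b = (t⁻¹) ^ 2 * a⁻¹ := by
  field_simp
  linarith

theorem aux2 {t T b : ℝ} (hT : T ≠ 0) (hb : b ≠ 0) (h : t * (T * b) = 1) :
    t = T⁻¹ * b⁻¹ := by
  field_simp
  linarith

theorem Lim.attract {g : ℕ → G} {p q : Sp E} (h : Lim ρ g p q) {x : ℕ → Sp E} {x₀ : Sp E}
    (hx : Tendsto x atTop (𝓝 x₀)) (hne : x₀ ≠ q) :
    Tendsto (fun k => F ρ (g k) (x k)) atTop (𝓝 p) := by
  have hTi : Tendsto (fun k => (T ρ (g k))⁻¹) atTop (𝓝 0) := tendsto_inv_atTop_zero.comp h.top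
  have hxE : Tendsto (fun k => (x k : E)) atTop (𝓝 (x₀ : E)) :=
    (continuous_subtype_val.tendsto x₀).comp hx
  -- the factor
  have h1 : Tendsto (fun k => 1 - inner ℝ (x k : E) ((T ρ (g k))⁻¹ • U ρ (g k)⁻¹)) atTop
      (𝓝 (1 - inner ℝ (x₀ : E) (q : E))) := tendsto_const_nhds.sub (hxE.inner h.right)
  have h1p := one_sub_inner_pos hne
  have h2 : Tendsto (fun k => ((T ρ (g k))⁻¹) ^ 2 *
      (1 - inner ℝ (x k : E) ((T ρ (g k))⁻¹ • U ρ (g k)⁻¹))⁻¹) atTop (𝓝 0) := by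
    have := (hTi.pow 2).mul (h1.inv₀ h1p.ne')
    simpa using this
  have h3 : ∀ᶠ k in atTop, 1 - inner ℝ (F ρ (g k) (x k) : E) ((T ρ (g k))⁻¹ • U ρ (g k)) =
      ((T ρ (g k))⁻¹) ^ 2 * (1 - inner ℝ (x k : E) ((T ρ (g k))⁻¹ • U ρ (g k)⁻¹))⁻¹ := by
    filter_upwards [h1.eventually (lt_mem_nhds h1p)] with k hk
    have hT := (T_pos (ρ := ρ) (g k)).ne'
    have e1 : tt ρ (g k) (x k) = T ρ (g k) *
        (1 - inner ℝ (x k : E) ((T ρ (g k))⁻¹ • U ρ (g k)⁻¹)) := by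
      rw [tt_eq, real_inner_smul_right]; field_simp
    have e2 : T ρ (g k) - inner ℝ (F ρ (g k) (x k) : E) (U ρ (g k)) = T ρ (g k) *
        (1 - inner ℝ (F ρ (g k) (x k) : E) ((T ρ (g k))⁻¹ • U ρ (g k))) := by
      rw [real_inner_smul_right]; field_simp
    have e3 := key_o (ρ := ρ) (g k) (x k)
    rw [e1, e2] at e3
    exact aux1 hT hk.ne' e3
  have h4 : Tendsto (fun k => 1 - inner ℝ (F ρ (g k) (x k) : E) ((T ρ (g k))⁻¹ • U ρ (g k))) atTop
      (𝓝 0) := (tendsto_congr' h3).2 h2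
  have h5 : ∀ k, ‖(F ρ (g k) (x k) : E) - (T ρ (g k))⁻¹ • U ρ (g k)‖ ^ 2 =
      2 * (1 - inner ℝ (F ρ (g k) (x k) : E) ((T ρ (g k))⁻¹ • U ρ (g k))) - ((T ρ (g k))⁻¹) ^ 2 := by
    intro k
    rw [@norm_sub_sq_real, nrm, norm_u_sq]; ring
  have h6 : Tendsto (fun k => ‖(F ρ (g k) (x k) : E) - (T ρ (g k))⁻¹ • U ρ (g k)‖ ^ 2) atTop
      (𝓝 0) := by
    have := (h4.const_mul 2).sub (hTi.pow 2)
    simpa only [← h5, mul_zero, ne_eq, OfNat.ofNat_ne_zero, not_false_eq_true, zero_pow,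
      sub_zero] using this
  have h7 : Tendsto (fun k => (F ρ (g k) (x k) : E) - (T ρ (g k))⁻¹ • U ρ (g k)) atTop (𝓝 0) := by
    rw [tendsto_zero_iff_norm_tendsto_zero]
    have := h6.sqrt
    simpa [Real.sqrt_sq] using this
  have h8 : Tendsto (fun k => (F ρ (g k) (x k) : E)) atTop (𝓝 (p : E)) := by
    have := h7.add h.left
    simpa using this
  exact tendsto_subtype_rng.2 h8

theorem Lim.shrink {g : ℕ → G} {p q : Sp E} (h : Lim ρ g p q) {x c : Sp E}
    (hc : Tendsto (fun k => F ρ (g k) x) atTop (𝓝 c)) (hne : c ≠ p) :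
    Tendsto (fun k => tt ρ (g k) x) atTop (𝓝 0) := by
  have hTi : Tendsto (fun k => (T ρ (g k))⁻¹) atTop (𝓝 0) := tendsto_inv_atTop_zero.comp h.top
  have hcE : Tendsto (fun k => (F ρ (g k) x : E)) atTop (𝓝 (c : E)) :=
    (continuous_subtype_val.tendsto c).comp hc
  have h1 : Tendsto (fun k => 1 - inner ℝ (F ρ (g k) x : E) ((T ρ (g k))⁻¹ • U ρ (g k))) atTop
      (𝓝 (1 - inner ℝ (c : E) (p : E))) := tendsto_const_nhds.sub (hcE.inner h.left)
  have h1p := one_sub_inner_pos hne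
  have h2 := hTi.mul (h1.inv₀ h1p.ne')
  rw [zero_mul] at h2
  refine (tendsto_congr' ?_).2 h2
  filter_upwards [h1.eventually (lt_mem_nhds h1p)] with k hk
  have hT := (T_pos (ρ := ρ) (g k)).ne'
  have e2 : T ρ (g k) - inner ℝ (F ρ (g k) x : E) (U ρ (g k)) = T ρ (g k) *
      (1 - inner ℝ (F ρ (g k) x : E) ((T ρ (g k))⁻¹ • U ρ (g k))) := by
    rw [real_inner_smul_right]; field_simp
  have e3 := key_o (ρ := ρ) (g k) x
  rw [e2] at e3
  exact aux2 hT hk.ne' e3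

end Pool.Agent.TH631.RC
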