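import Pool.Agent.TH631.RC.Prop

/-!
# Peripheral groups have one limit point
-/

set_option autoImplicit false

open Filter Topology Set

namespace Pool.Agent.TH631.RC

variable {E : Type} [NormedAddCommGroup E] [InnerProductSpace ℝ E]
variable {G : Type} [Group G] {ρ : HypAction G E}

theorem continuous_map [FiniteDimensional ℝ E] (g : G) : Continuous fun v => ρ.map g v :=
  (ρ.map g).continuous_of_finiteDimensional

theorem continuous_light : Continuous fun x : Sp E => light (x : E) := by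
  unfold light; fun_prop

theorem continuous_tt [FiniteDimensional ℝ E] (g : G) : Continuous fun x => tt ρ g x := by
  unfold tt
  exact continuous_fst.comp ((continuous_map g).comp continuous_light)

theorem continuous_F [FiniteDimensional ℝ E] (g : G) : Continuous fun x => F ρ g x := by
  unfold F
  refine Continuous.subtype_mk ?_ _
  exact ((continuous_tt g).inv₀ fun x => (tt_pos g x).ne').smul
    (continuous_snd.comp ((continuous_map g).comp continuous_light))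

variable (ρ) in
/-- `p` is a limit point of the sequence `g`. -/
structure LimPt (g : ℕ → G) (p : Sp E) : Prop where
  top : Tendsto (fun k => T ρ (g k)) atTop atTop
  lim : Tendsto (fun k => (T ρ (g k))⁻¹ • U ρ (g k)) atTop (𝓝 (p : E))

theorem LimPt.tendsto {g : ℕ → G} {p : Sp E} (h : LimPt ρ g p) :
    Tendsto (fun k => (T ρ (g k))⁻¹ • ρ.map (g k) (1, 0)) atTop (𝓝 (light (p : E))) := by
  have h1 : ∀ k, (T ρ (g k))⁻¹ • ρ.map (g k) (1, 0) = ((1 : ℝ), (T ρ (g k))⁻¹ • U ρ (g k)) := by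
    intro k
    have := (T_pos (ρ := ρ) (g k)).ne'
    rw [map_o]
    refine Prod.ext ?_ rfl
    simp [this]
  simp only [h1]
  exact (tendsto_const_nhds.prodMk_nhds h.lim)

/-- Two sequences that stay at bounded distance have the same limit points. -/
theorem LimPt.unique {g g' : ℕ → G} {p p' : Sp E} (h : LimPt ρ g p) (h' : LimPt ρ g' p') {C : ℝ}
    (hC : ∀ k, |lor (ρ.map (g k) (1, 0)) (ρ.map (g' k) (1, 0))| ≤ C) : p = p' := by
  have h1 : Tendsto (fun k => lor ((T ρ (g k))⁻¹ • ρ.map (g k) (1, 0))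
      ((T ρ (g' k))⁻¹ • ρ.map (g' k) (1, 0))) atTop (𝓝 (lor (light (p : E)) (light (p' : E)))) :=
    (continuous_lor.tendsto (light (p : E), light (p' : E))).comp (h.tendsto.prodMk_nhds h'.tendsto)
  have h2 : Tendsto (fun k => lor ((T ρ (g k))⁻¹ • ρ.map (g k) (1, 0))
      ((T ρ (g' k))⁻¹ • ρ.map (g' k) (1, 0))) atTop (𝓝 0) := by
    have hT : Tendsto (fun k => (T ρ (g k))⁻¹ * (T ρ (g' k))⁻¹ * C) atTop (𝓝 0) := by
      have := ((tendsto_inv_atTop_zero.comp h.top).mul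
        (tendsto_inv_atTop_zero.comp h'.top)).mul_const C
      simpa using this
    refine squeeze_zero_norm (fun k => ?_) hT
    rw [lor_smul_left, lor_smul_right, Real.norm_eq_abs, abs_mul, abs_mul, abs_inv, abs_inv,
      abs_of_pos (T_pos (g k)), abs_of_pos (T_pos (g' k)), ← mul_assoc]
    exact mul_le_mul_of_nonneg_left (hC k)
      (mul_nonneg (inv_nonneg.2 (T_pos _).le) (inv_nonneg.2 (T_pos _).le))
  have h3 := tendsto_nhds_unique h1 h2
  rw [lor_light] at h3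
  exact eq_of_inner h3

/-- Limit points of a sequence are fixed by the elements commuting with the sequence. -/
theorem LimPt.fixed [FiniteDimensional ℝ E] {g : ℕ → G} {p : Sp E} (h : LimPt ρ g p) {a : G}
    (ha : ∀ k, a * g k = g k * a) : F ρ a p = p := by
  have h1 : Tendsto (fun k => lor (ρ.map a ((T ρ (g k))⁻¹ • ρ.map (g k) (1, 0)))
      ((T ρ (g k))⁻¹ • ρ.map (g k) (1, 0))) atTop
      (𝓝 (lor (ρ.map a (light (p : E))) (light (p : E)))) :=
    (continuous_lor.tendsto (ρ.map a (light (p : E)), light (p : E))).comp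
      ((((continuous_map a).tendsto _).comp h.tendsto).prodMk_nhds h.tendsto)
  have h2 : Tendsto (fun k => lor (ρ.map a ((T ρ (g k))⁻¹ • ρ.map (g k) (1, 0)))
      ((T ρ (g k))⁻¹ • ρ.map (g k) (1, 0))) atTop (𝓝 0) := by
    have hT : Tendsto (fun k => (T ρ (g k))⁻¹ * (T ρ (g k))⁻¹ * T ρ a) atTop (𝓝 0) := by
      have := ((tendsto_inv_atTop_zero.comp h.top).mul
        (tendsto_inv_atTop_zero.comp h.top)).mul_const (T ρ a)
      simpa using this
    refine hT.congr fun k => ?_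
    rw [map_smul, lor_smul_left, lor_smul_right, ← ρ.map_mul, ha, ρ.map_mul, ρ.lor_map, lor_o]
    change _ = _ * (_ * T ρ a)
    ring
  have h3 := tendsto_nhds_unique h1 h2
  rw [map_light, lor_smul_left, lor_light] at h3
  rcases mul_eq_zero.1 h3 with h4 | h4
  · exact absurd h4 (tt_pos a p).ne'
  · exact eq_of_inner h4

theorem tt_zpow {g : G} {p : Sp E} (h : F ρ g p = p) (i : ℤ) :
    F ρ (g ^ i) p = p ∧ tt ρ (g ^ i) p = tt ρ g p ^ i := by
  have hi : F ρ g⁻¹ p = p := by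
    have := F_inv' (ρ := ρ) g p
    rwa [h] at this
  have ht : tt ρ g⁻¹ p = (tt ρ g p)⁻¹ := by
    have := (tt_mul (ρ := ρ) g⁻¹ g p).1
    rw [inv_mul_cancel, tt_one, h] at this
    exact (eq_inv_of_mul_eq_one_left this.symm)
  have h0 := (tt_pos (ρ := ρ) g p).ne'
  induction i using Int.induction_on with
  | zero => exact ⟨by simp [F_one], by simp [tt_one]⟩
  | succ n ih =>
    rw [zpow_add_one, zpow_add_one₀ h0]
    have := tt_mul (ρ := ρ) (g ^ (n : ℤ)) g p
    rw [h] at this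
    exact ⟨this.2.trans ih.1, by rw [this.1, ih.2]⟩
  | pred n ih =>
    rw [zpow_sub_one, zpow_sub_one₀ h0]
    have := tt_mul (ρ := ρ) (g ^ (-(n : ℤ))) g⁻¹ p
    rw [hi, ht] at this
    exact ⟨this.2.trans ih.1, by rw [this.1, ih.2]⟩

theorem T_le_of_tt {g : G} {p p' : Sp E} (hne : p ≠ p') {C : ℝ} (h1 : tt ρ g p ≤ C)
    (h2 : tt ρ g p' ≤ C) : T ρ g * (2 - ‖(p : E) + (p' : E)‖) ≤ 2 * C := by
  have e1 := tt_eq (ρ := ρ) g p
  have e2 := tt_eq (ρ := ρ) g p'
  have e3 := real_inner_le_norm ((p : E) + (p' : E)) (U ρ g⁻¹)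
  rw [inner_add_left] at e3
  have e4 := U_lt (ρ := ρ) g⁻¹
  rw [T_inv] at e4
  have e5 : ‖(p : E) + (p' : E)‖ * ‖U ρ g⁻¹‖ ≤ ‖(p : E) + (p' : E)‖ * T ρ g :=
    mul_le_mul_of_nonneg_left e4.le (norm_nonneg _)
  nlinarith

theorem norm_add_lt {p p' : Sp E} (hne : p ≠ p') : ‖(p : E) + (p' : E)‖ < 2 := by
  have h1 := one_sub_inner_pos hne
  have h2 : ‖(p : E) + (p' : E)‖ ^ 2 = 2 + 2 * inner ℝ (p : E) (p' : E) := by
    rw [@norm_add_sq_real, nrm, nrm]; ring
  nlinarith [norm_nonneg ((p : E) + (p' : E))]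

/-- An abelian group containing `ℤ × ℤ` does not fix two points at infinity. -/
theorem not_two (hfin : ∀ R : ℝ, {g : G | T ρ g ≤ R}.Finite) {a₁ a₂ : G} {p p' : Sp E}
    (hinj : Function.Injective (fun z : ℤ × ℤ => a₁ ^ z.1 * a₂ ^ z.2))
    (h1 : F ρ a₁ p = p) (h2 : F ρ a₂ p = p) (h1' : F ρ a₁ p' = p') (h2' : F ρ a₂ p' = p') :
    p = p' := by
  by_contra hne
  set s := Real.log (tt ρ a₁ p) with hs
  set r := Real.log (tt ρ a₂ p) with hr
  have hlog : ∀ i j : ℤ, F ρ (a₁ ^ i * a₂ ^ j) p = p ∧ F ρ (a₁ ^ i * a₂ ^ j) p' = p' ∧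
      Real.log (tt ρ (a₁ ^ i * a₂ ^ j) p) = i * s + j * r := by
    intro i j
    have e1 := tt_mul (ρ := ρ) (a₁ ^ i) (a₂ ^ j) p
    have e2 := tt_mul (ρ := ρ) (a₁ ^ i) (a₂ ^ j) p'
    rw [(tt_zpow h2 j).1] at e1
    rw [(tt_zpow h2' j).1] at e2
    refine ⟨e1.2.trans (tt_zpow h1 i).1, e2.2.trans (tt_zpow h1' i).1, ?_⟩
    rw [e1.1, (tt_zpow h1 i).2, (tt_zpow h2 j).2, Real.log_mul, Real.log_zpow, Real.log_zpow]
    · exact (zpow_pos (tt_pos _ _) _).ne'
    · exact (zpow_pos (tt_pos _ _) _).ne'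
  -- many elements with a bounded value
  obtain ⟨ι, hι, hb⟩ : ∃ ι : ℤ → ℤ × ℤ, Function.Injective ι ∧
      ∀ k, |(ι k).1 * s + (ι k).2 * r| ≤ |s| := by
    by_cases hs0 : s = 0
    · refine ⟨fun k => (k, 0), fun k l h => (Prod.ext_iff.1 h).1, fun k => ?_⟩
      simp [hs0]
    · refine ⟨fun k => (-round (k * r / s), k), fun k l h => (Prod.ext_iff.1 h).2, fun k => ?_⟩
      have e : ((-round (k * r / s) : ℤ) : ℝ) * s + k * r =
          s * (k * r / s - round (k * r / s)) := by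
        push_cast; field_simp; ring
      change |((-round (k * r / s) : ℤ) : ℝ) * s + k * r| ≤ |s|
      rw [e, abs_mul]
      have := abs_sub_round (k * r / s)
      nlinarith [abs_nonneg s]
  have hpos : 0 < 2 - ‖(p : E) + (p' : E)‖ := by linarith [norm_add_lt hne]
  have hsub : range (fun k : ℤ => a₁ ^ (ι k).1 * a₂ ^ (ι k).2) ⊆
      {g : G | T ρ g ≤ 2 * Real.exp |s| / (2 - ‖(p : E) + (p' : E)‖)} := by
    rintro _ ⟨k, rfl⟩
    obtain ⟨e1, e2, e3⟩ := hlog (ι k).1 (ι k).2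
    have hk := hb k
    rw [← e3] at hk
    have p1 := tt_pos (ρ := ρ) (a₁ ^ (ι k).1 * a₂ ^ (ι k).2) p
    have p2 := tt_pos (ρ := ρ) (a₁ ^ (ι k).1 * a₂ ^ (ι k).2) p'
    have q1 : tt ρ (a₁ ^ (ι k).1 * a₂ ^ (ι k).2) p ≤ Real.exp |s| := by
      rw [← Real.log_le_iff_le_exp p1]; exact (le_abs_self _).trans hk
    have q2 : tt ρ (a₁ ^ (ι k).1 * a₂ ^ (ι k).2) p' ≤ Real.exp |s| := by
      have e4 := key (ρ := ρ) (a₁ ^ (ι k).1 * a₂ ^ (ι k).2) p p'
      rw [e1, e2] at e4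
      have e5 := (one_sub_inner_pos hne).ne'
      have e6 : tt ρ (a₁ ^ (ι k).1 * a₂ ^ (ι k).2) p * tt ρ (a₁ ^ (ι k).1 * a₂ ^ (ι k).2) p' = 1 :=
        mul_right_cancel₀ e5 (by rw [e4, one_mul])
      rw [← Real.log_le_iff_le_exp p2]
      have e7 : Real.log (tt ρ (a₁ ^ (ι k).1 * a₂ ^ (ι k).2) p') =
          - Real.log (tt ρ (a₁ ^ (ι k).1 * a₂ ^ (ι k).2) p) := by
        have := Real.log_mul p1.ne' p2.ne'
        rw [e6, Real.log_one] at this
        linarith
      rw [e7]; exact (neg_le_abs _).trans hk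
    have := T_le_of_tt hne q1 q2
    change T ρ _ ≤ _
    rw [le_div_iff₀ hpos]; exact this
  have hinf : (range fun k : ℤ => a₁ ^ (ι k).1 * a₂ ^ (ι k).2).Infinite :=
    infinite_range_of_injective (hinj.comp hι)
  exact hinf ((hfin _).subset hsub)

theorem pow_inj {a₁ a₂ : G} (hinj : Function.Injective (fun z : ℤ × ℤ => a₁ ^ z.1 * a₂ ^ z.2)) :
    Function.Injective fun k : ℕ => a₁ ^ k := by
  intro k l hkl
  have := @hinj (k, 0) (l, 0) (by simpa using hkl)
  simpa using this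

theorem top_of_inj (hfin : ∀ R : ℝ, {g : G | T ρ g ≤ R}.Finite) {g : ℕ → G}
    (hg : Function.Injective g) : Tendsto (fun k => T ρ (g k)) atTop atTop := by
  refine tendsto_cofinite_of_finite ?_ hfin
  rw [← Nat.cofinite_eq_atTop]
  exact hg.tendsto_cofinite

/-- A peripheral group attracts everything to one point `c`, its fixed point. -/
theorem peripheral [FiniteDimensional ℝ E] (hE : 1 < Module.finrank ℝ E)
    (hfin : ∀ R : ℝ, {g : G | T ρ g ≤ R}.Finite) {P : Subgroup G} (hP : VirtAbelian P) :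
    ∃ c : Sp E, (∀ g : ℕ → G, (∀ k, g k ∈ P) → Tendsto (fun k => T ρ (g k)) atTop atTop →
      ∀ (x : ℕ → Sp E) (x₀ : Sp E), Tendsto x atTop (𝓝 x₀) → x₀ ≠ c →
        Tendsto (fun k => F ρ (g k) (x k)) atTop (𝓝 c)) ∧ (∀ g ∈ P, F ρ g c = c) ∧
      ∃ g : ℕ → G, (∀ k, g k ∈ P) ∧ Function.Injective g := by
  obtain ⟨A, S, hAP, hcomm, hcos, a₁, ha₁, a₂, ha₂, hinj⟩ := hP
  have hinj1 := pow_inj hinj
  -- the limit point of `A`
  obtain ⟨φ, hφ, c, hc⟩ := exists_lim_left (top_of_inj (ρ := ρ) hfin hinj1)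
  have hcL : LimPt ρ (fun k => a₁ ^ (φ k)) c :=
    ⟨(top_of_inj hfin hinj1).comp hφ.tendsto_atTop, hc⟩
  have hfixA : ∀ (g : ℕ → G) (p : Sp E), (∀ k, g k ∈ A) → LimPt ρ g p → ∀ a ∈ A, F ρ a p = p :=
    fun g p hg hp a ha => hp.fixed fun k => hcomm _ ha _ (hg k)
  have hA1 : ∀ k, a₁ ^ (φ k) ∈ A := fun k => A.pow_mem ha₁ _
  have huA : ∀ (g : ℕ → G) (p : Sp E), (∀ k, g k ∈ A) → LimPt ρ g p → p = c := by
    intro g p hg hp
    exact not_two hfin hinj (hfixA g p hg hp _ ha₁) (hfixA g p hg hp _ ha₂)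
      (hfixA _ c hA1 hcL _ ha₁) (hfixA _ c hA1 hcL _ ha₂)
  -- limit points of `P`
  have huP : ∀ (g : ℕ → G) (p : Sp E), (∀ k, g k ∈ P) → LimPt ρ g p → p = c := by
    intro g p hg hp
    choose a ha f hf hgaf using fun k => hcos (g k) (hg k)
    set C := ∑ f ∈ S, T ρ f with hCdef
    have hfC : ∀ k, T ρ (f k) ≤ C := fun k =>
      Finset.single_le_sum (f := fun f => T ρ f) (fun i _ => (T_pos i).le) (hf k)
    have hC0 : 0 < C := (T_pos (f 0)).trans_le (hfC 0)
    have hTa : Tendsto (fun k => T ρ (a k)) atTop atTop := by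
      refine tendsto_atTop_mono (f := fun k => (2 * C)⁻¹ * T ρ (g k)) (fun k => ?_)
        (hp.top.const_mul_atTop (by positivity))
      have h1 := T_mul_le (ρ := ρ) (a k) (f k)
      rw [← hgaf] at h1
      rw [inv_mul_le_iff₀ (by positivity)]
      nlinarith [hfC k, T_pos (ρ := ρ) (a k)]
    obtain ⟨ψ, hψ, p', hp'⟩ := exists_lim_left hTa
    have hL' : LimPt ρ (fun k => a (ψ k)) p' := ⟨hTa.comp hψ.tendsto_atTop, hp'⟩
    have hL : LimPt ρ (fun k => g (ψ k)) p := ⟨hp.top.comp hψ.tendsto_atTop,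
      hp.lim.comp hψ.tendsto_atTop⟩
    have h1 : p = p' := by
      refine hL.unique hL' (C := C) fun k => ?_
      rw [hgaf, ρ.map_mul, ρ.lor_map, lor_o]
      change |T ρ _| ≤ C
      rw [abs_of_pos (T_pos _)]
      exact hfC _
    rw [h1]
    exact huA _ _ (fun k => ha _) hL'
  have hPC : ∀ g : ℕ → G, (∀ k, g k ∈ P) → Tendsto (fun k => T ρ (g k)) atTop atTop →
      ∀ (x : ℕ → Sp E) (x₀ : Sp E), Tendsto x atTop (𝓝 x₀) → x₀ ≠ c →
        Tendsto (fun k => F ρ (g k) (x k)) atTop (𝓝 c) := by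
    intro g hg hT x x₀ hx hne
    refine tendsto_of_subseq_tendsto fun ns hns => ?_
    obtain ⟨ψ, hψ, p, q, hL⟩ := exists_lim (g := fun k => g (ns k)) (hT.comp hns)
    have hp : p = c := huP _ _ (fun k => hg _) ⟨hL.top, hL.left⟩
    have hq : q = c := huP _ _ (fun k => P.inv_mem (hg _)) ⟨hL.inv.top, hL.inv.left⟩
    refine ⟨ψ, ?_⟩
    have h1 := hL.attract (x := fun k => x (ns (ψ k))) (x₀ := x₀)
      (hx.comp (hns.comp hψ.tendsto_atTop)) (by rw [hq]; exact hne)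
    rw [hp] at h1
    exact h1
  refine ⟨c, hPC, fun g hg => ?_, fun k => a₁ ^ k, fun k => hAP (A.pow_mem ha₁ _), hinj1⟩
  -- another point
  obtain ⟨x, hx⟩ : ∃ x : Sp E, x ≠ c := by
    refine ⟨⟨-(c : E), by simp⟩, fun h => ?_⟩
    have h1 : -(c : E) = c := congrArg Subtype.val h
    have h2 : (c : E) = 0 := by
      have : (2 : ℝ) • (c : E) = 0 := by
        rw [two_smul]; nth_rewrite 1 [← h1]; simp
      simpa using this
    have h3 := nrm c
    rw [h2, norm_zero] at h3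
    norm_num at h3
  have e1 := hPC (fun k => a₁ ^ k) (fun k => hAP (A.pow_mem ha₁ _)) (top_of_inj hfin hinj1)
    (fun _ => x) x tendsto_const_nhds hx
  have e2 := ((continuous_F (ρ := ρ) g).tendsto c).comp e1
  have e3 := hPC (fun k => g * a₁ ^ k) (fun k => P.mul_mem hg (hAP (A.pow_mem ha₁ _)))
    (top_of_inj hfin fun k l h => hinj1 (mul_left_cancel h)) (fun _ => x) x tendsto_const_nhds hx
  refine tendsto_nhds_unique (e2.congr fun k => ?_) e3
  exact (tt_mul _ _ _).2.symm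

end Pool.Agent.TH631.RC
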