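import Pool.Agent.TH631.RC.Par

/-!
# Bounded parabolic points
-/

set_option autoImplicit false

open Filter Topology Set

namespace Pool.Agent.TH631.RC

variable {E : Type} [NormedAddCommGroup E] [InnerProductSpace ℝ E]
variable {G : Type} [Group G] {ρ : HypAction G E}
variable {X : Type} [MetricSpace X] {α : Action G X}

theorem key_norm (g : G) (x y : Sp E) :
    tt ρ g x * tt ρ g y * ‖(F ρ g x : E) - (F ρ g y : E)‖ ^ 2 = ‖(x : E) - (y : E)‖ ^ 2 := by
  have h := key (ρ := ρ) g x y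
  rw [one_sub_inner, one_sub_inner] at h
  linarith

/-- Inversion in the point `c`. -/
noncomputable def io (c x : Sp E) : E := (1 / ‖(x : E) - (c : E)‖) ^ 2 • ((x : E) - (c : E))

theorem dist_io {c x y : Sp E} (hx : x ≠ c) (hy : y ≠ c) :
    dist (io c x) (io c y) = ‖(x : E) - (y : E)‖ / (‖(x : E) - (c : E)‖ * ‖(y : E) - (c : E)‖) := by
  have h1 : (x : E) - (c : E) ≠ 0 := fun h => hx (Subtype.ext (sub_eq_zero.1 h))
  have h2 : (y : E) - (c : E) ≠ 0 := fun h => hy (Subtype.ext (sub_eq_zero.1 h))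
  unfold io
  rw [dist_div_norm_sq_smul h1 h2, dist_eq_norm, sub_sub_sub_cancel_right]
  ring

theorem norm_io {c x : Sp E} (hx : x ≠ c) : ‖io c x‖ * ‖(x : E) - (c : E)‖ = 1 := by
  have h1 : (x : E) - (c : E) ≠ 0 := fun h => hx (Subtype.ext (sub_eq_zero.1 h))
  have h2 := norm_pos_iff.2 h1
  unfold io
  rw [norm_smul, norm_pow, Real.norm_eq_abs, abs_of_pos (by positivity)]
  field_simp

theorem F_inj {g : G} {x y : Sp E} (h : F ρ g x = F ρ g y) : x = y := by
  rw [← F_inv' (ρ := ρ) g x, h, F_inv']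

theorem dist_io_F {g : G} {c x y : Sp E} (hc : F ρ g c = c) (hx : x ≠ c) (hy : y ≠ c) :
    dist (io c (F ρ g x)) (io c (F ρ g y)) = tt ρ g c * dist (io c x) (io c y) := by
  have hx' : F ρ g x ≠ c := fun h => hx (F_inj (h.trans hc.symm))
  have hy' : F ρ g y ≠ c := fun h => hy (F_inj (h.trans hc.symm))
  rw [dist_io hx' hy', dist_io hx hy]
  have k1 := key_norm (ρ := ρ) g x y
  have k2 := key_norm (ρ := ρ) g x c
  have k3 := key_norm (ρ := ρ) g y c
  rw [hc] at k2 k3
  have p1 := tt_pos (ρ := ρ) g x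
  have p2 := tt_pos (ρ := ρ) g y
  have p3 := tt_pos (ρ := ρ) g c
  have n1 : 0 < ‖(x : E) - (c : E)‖ := norm_pos_iff.2 fun h => hx (Subtype.ext (sub_eq_zero.1 h))
  have n2 : 0 < ‖(y : E) - (c : E)‖ := norm_pos_iff.2 fun h => hy (Subtype.ext (sub_eq_zero.1 h))
  have n3 : 0 < ‖(F ρ g x : E) - (c : E)‖ :=
    norm_pos_iff.2 fun h => hx' (Subtype.ext (sub_eq_zero.1 h))
  have n4 : 0 < ‖(F ρ g y : E) - (c : E)‖ :=
    norm_pos_iff.2 fun h => hy' (Subtype.ext (sub_eq_zero.1 h))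
  have e : (‖(F ρ g x : E) - (F ρ g y : E)‖ /
      (‖(F ρ g x : E) - (c : E)‖ * ‖(F ρ g y : E) - (c : E)‖)) ^ 2 =
      (tt ρ g c * (‖(x : E) - (y : E)‖ / (‖(x : E) - (c : E)‖ * ‖(y : E) - (c : E)‖))) ^ 2 := by
    rw [div_pow, mul_pow, mul_pow, div_pow, mul_pow, ← k1, ← k2, ← k3]
    field_simp
  rwa [sq_eq_sq₀ (by positivity) (by positivity)] at e

theorem not_contracting [FiniteDimensional ℝ E] {P : Subgroup G} {c : Sp E}
    (hPC : ∀ g : ℕ → G, (∀ k, g k ∈ P) → Tendsto (fun k => T ρ (g k)) atTop atTop →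
      ∀ (x : ℕ → Sp E) (x₀ : Sp E), Tendsto x atTop (𝓝 x₀) → x₀ ≠ c →
        Tendsto (fun k => F ρ (g k) (x k)) atTop (𝓝 c)) {g : G} (hg : g ∈ P) (hc : F ρ g c = c)
    {x : Sp E} (hx : x ≠ c) : ¬ tt ρ g c < 1 := by
  intro hlt
  have hpos := tt_pos (ρ := ρ) g c
  have hpow : ∀ k : ℕ, F ρ (g ^ k) c = c ∧ tt ρ (g ^ k) c = tt ρ g c ^ k := by
    intro k
    have := tt_zpow (ρ := ρ) hc (k : ℤ)
    simpa using this
  have hT : Tendsto (fun k : ℕ => T ρ (g ^ k)) atTop atTop := by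
    have h1 : Tendsto (fun k : ℕ => ((tt ρ g c)⁻¹) ^ k) atTop atTop :=
      tendsto_pow_atTop_atTop_of_one_lt ((one_lt_inv₀ hpos).2 hlt)
    refine tendsto_atTop_mono (f := fun k : ℕ => ((tt ρ g c)⁻¹) ^ k / 2) (fun k => ?_)
      (h1.atTop_div_const (by norm_num))
    have h2 := tt_ge (ρ := ρ) (g ^ k) c
    rw [(hpow k).2] at h2
    have h3 : 0 < tt ρ g c ^ k := pow_pos hpos k
    rw [inv_pow, div_le_iff₀ (by norm_num : (0 : ℝ) < 2), inv_le_iff_one_le_mul₀ h3]
    linarith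
  have hlim := hPC (fun k => g ^ k) (fun k => P.pow_mem hg k) hT (fun _ => x) x
    tendsto_const_nhds hx
  have hne : ∀ k : ℕ, F ρ (g ^ k) x ≠ c := fun k h => hx (F_inj (h.trans (hpow k).1.symm))
  set u : ℕ → E := fun k => io c (F ρ (g ^ k) x) with hu
  have hstep : ∀ k, dist (u k) (u (k + 1)) = dist (u 0) (u 1) * tt ρ g c ^ k := by
    intro k
    induction k with
    | zero => simp
    | succ n ih =>
      have e1 : ∀ m : ℕ, F ρ (g ^ (m + 1)) x = F ρ g (F ρ (g ^ m) x) := fun m => by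
        rw [pow_succ', (tt_mul g (g ^ m) x).2]
      have e2 : u (n + 1) = io c (F ρ g (F ρ (g ^ n) x)) := by simp only [hu, e1]
      have e3 : u (n + 1 + 1) = io c (F ρ g (F ρ (g ^ (n + 1)) x)) := by simp only [hu, e1]
      rw [e3]
      nth_rewrite 1 [e2]
      rw [dist_io_F hc (hne n) (hne (n + 1))]
      change tt ρ g c * dist (u n) (u (n + 1)) = _
      rw [ih, pow_succ]; ring
  have hcau : CauchySeq u :=
    cauchySeq_of_le_geometric (tt ρ g c) (dist (u 0) (u 1)) hlt fun k => (hstep k).le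
  obtain ⟨u₀, hu₀⟩ := cauchySeq_tendsto_of_complete hcau
  have h1 : Tendsto (fun k : ℕ => ‖(F ρ (g ^ k) x : E) - (c : E)‖) atTop (𝓝 0) := by
    have := (continuous_subtype_val.tendsto c).comp hlim
    exact tendsto_iff_norm_sub_tendsto_zero.1 this
  have h2 := hu₀.norm.mul h1
  rw [mul_zero] at h2
  have h3 : Tendsto (fun _ : ℕ => (1 : ℝ)) atTop (𝓝 0) :=
    h2.congr fun k => norm_io (hne k)
  exact one_ne_zero (tendsto_nhds_unique tendsto_const_nhds h3)

theorem preconnected_compl (c : Sp E) : IsPreconnected ({c}ᶜ : Set (Sp E)) := by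
  have hc : ‖(c : E)‖ = 1 := nrm c
  have h := (stereographic hc).symm_image_target_eq_source
  rw [stereographic_target, stereographic_source] at h
  have h1 : IsPreconnected ((stereographic hc).symm '' univ) := by
    refine isPreconnected_univ.image _ ?_
    have := (stereographic hc).symm.continuousOn
    rwa [OpenPartialHomeomorph.symm_source, stereographic_target] at this
  rw [h] at h1
  exact h1

/-- A bounded parabolic point has exactly one preimage `c`, a cusp of full rank. -/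
theorem Data.parabolic [FiniteDimensional ℝ E] [CompactSpace X] (hE : 1 < Module.finrank ℝ E)
    {h : Sp E → X} (hd : Data ρ α h) (hα : IsConvergence α) {y : X} {P : Subgroup G}
    (hP : BoundedParabolic α y P) (hV : VirtAbelian P) :
    ∃ c : Sp E, (∀ x, h x = y ↔ x = c) ∧ (∀ g ∈ P, F ρ g c = c ∧ tt ρ g c = 1) ∧
      (∃ K : Set (Sp E), IsCompact K ∧ c ∉ K ∧ ∀ w, w ≠ c → ∃ g ∈ P, F ρ g w ∈ K) ∧
      ∃ g : ℕ → G, (∀ k, g k ∈ P) ∧ Function.Injective g := by
  have hfin := hd.finite hα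
  obtain ⟨c, hPC, hfix, g, hgP, hginj⟩ := peripheral hE hfin hV
  have hT := top_of_inj hfin hginj
  -- `h c = y`
  have hcy : h c = y := by
    obtain ⟨c', ⟨w, rfl⟩, hc'⟩ := (hd.inf.sdiff (Set.toFinite {y, h c})).nonempty
    have h1 : h w ≠ y := fun h0 => hc' (by simp [h0])
    have h2 : w ≠ c := fun h0 => hc' (by simp [h0])
    have h3 : Tendsto (fun k => h (F ρ (g k) w)) atTop (𝓝 (h c)) :=
      (hd.cont.tendsto c).comp (hPC g hgP hT (fun _ => w) w tendsto_const_nhds h2)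
    have h4 : Tendsto (fun k => α.map (g k) (h w)) atTop (𝓝 y) := by
      rw [tendsto_def]
      intro U hU
      obtain ⟨U', hU'U, hU'o, hyU'⟩ := mem_nhds_iff.1 hU
      have hK : IsCompact (U'ᶜ ∪ {h w}) :=
        (hU'o.isClosed_compl.isCompact).union isCompact_singleton
      have hyK : y ∉ U'ᶜ ∪ {h w} := by
        rintro (h0 | h0)
        · exact h0 hyU'
        · exact h1 h0.symm
      have hf := hP.proper _ hK hyK
      have hcof : Tendsto g atTop cofinite := by
        rw [← Nat.cofinite_eq_atTop]; exact hginj.tendsto_cofinite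
      filter_upwards [hcof.eventually hf.compl_mem_cofinite] with k hk
      by_contra hnot
      refine hk ⟨hgP k, h w, Or.inr rfl, Or.inl fun h0 => hnot (hU'U h0)⟩
    exact tendsto_nhds_unique (h3.congr fun k => hd.equi _ _) h4
  obtain ⟨K, hK, hyK, hKP⟩ := hP.cocompact
  -- points over `y` other than `c` are not limits of points over other points
  have hclos : ∀ z, z ≠ c → h z = y → z ∉ closure {x | h x ≠ y} := by
    intro z hzc hzy hz
    obtain ⟨x, hx, hxz⟩ := mem_closure_iff_seq_limit.1 hz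
    choose g' hg' hg'K using fun k => hKP (h (x k)) (hx k)
    have hne : ∀ g₀ ∈ P, ∀ᶠ k in atTop, g' k ≠ g₀ := by
      intro g₀ hg₀
      have h1 : Tendsto (fun k => α.map g₀ (h (x k))) atTop (𝓝 y) := by
        have := ((α.cont g₀).tendsto (h z)).comp ((hd.cont.tendsto z).comp hxz)
        rw [hzy, hP.fixes g₀ hg₀] at this
        exact this
      filter_upwards [h1.eventually (hK.isClosed.isOpen_compl.mem_nhds hyK)] with k hk h0
      rw [← h0] at hk
      exact hk (hg'K k)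
    have hT' : Tendsto (fun k => T ρ (g' k)) atTop atTop := by
      rw [tendsto_atTop]
      intro R
      have h1 : ∀ᶠ k in atTop, ∀ g₀ ∈ {g : G | T ρ g ≤ R}, g' k ≠ g₀ := by
        rw [eventually_all_finite (hfin R)]
        intro g₀ _
        by_cases hg₀ : g₀ ∈ P
        · exact hne g₀ hg₀
        · exact Eventually.of_forall fun k h0 => hg₀ (h0 ▸ hg' k)
      filter_upwards [h1] with k hk
      by_contra hlt
      exact hk _ (le_of_not_ge hlt) rfl
    have h1 : Tendsto (fun k => h (F ρ (g' k) (x k))) atTop (𝓝 (h c)) :=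
      (hd.cont.tendsto c).comp (hPC g' hg' hT' x z hxz hzc)
    rw [hcy] at h1
    refine hyK (hK.isClosed.mem_of_tendsto h1 (Eventually.of_forall fun k => ?_))
    rw [hd.equi]
    exact hg'K k
  obtain ⟨w, hw⟩ : ∃ w, h w ≠ y := by
    obtain ⟨c', ⟨w, rfl⟩, hc'⟩ := (hd.inf.sdiff (Set.toFinite {y})).nonempty
    exact ⟨w, fun h0 => hc' (by simp [h0])⟩
  have hwc : w ≠ c := fun h0 => hw (h0 ▸ hcy)
  have hfib : ∀ x, h x = y ↔ x = c := by
    refine fun x => ⟨fun hx => ?_, fun hx => hx ▸ hcy⟩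
    by_contra hxc
    have hpre := preconnected_compl c
    have hopen1 : IsOpen {x | h x ≠ y} := isOpen_ne_fun hd.cont continuous_const
    have hopen2 : IsOpen (closure {x | h x ≠ y})ᶜ := isClosed_closure.isOpen_compl
    obtain ⟨z, -, hz1, hz2⟩ := hpre _ _ hopen1 hopen2 (fun z hz => by
      by_cases hzy : h z = y
      · exact Or.inr (hclos z hz hzy)
      · exact Or.inl hzy) ⟨w, hwc, hw⟩ ⟨x, hxc, hclos x hxc hx⟩
    exact hz2 (subset_closure hz1)
  refine ⟨c, hfib, fun g hg => ⟨hfix g hg, ?_⟩, ⟨h ⁻¹' K, ?_, ?_, ?_⟩, g, hgP, hginj⟩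
  · have hc := hfix g hg
    have h1 := not_contracting hPC hg hc hwc
    have h2 := not_contracting hPC (P.inv_mem hg) (hfix _ (P.inv_mem hg)) hwc
    have h3 := (tt_mul (ρ := ρ) g⁻¹ g c).1
    rw [inv_mul_cancel, tt_one, hc] at h3
    have p1 := tt_pos (ρ := ρ) g c
    have p2 := tt_pos (ρ := ρ) g⁻¹ c
    push Not at h1 h2
    nlinarith
  · exact (hK.isClosed.preimage hd.cont).isCompact
  · intro h0
    have : h c ∈ K := h0
    rw [hcy] at this
    exact hyK this
  · intro x hx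
    obtain ⟨g, hg, hgK⟩ := hKP (h x) (fun h0 => hx ((hfib x).1 h0))
    refine ⟨g, hg, ?_⟩
    change h (F ρ g x) ∈ K
    rw [hd.equi]; exact hgK

end Pool.Agent.TH631.RC
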