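import Pool.Agent.TH631.RC.Lor

/-!
# Properness, conical points
-/

set_option autoImplicit false

open Filter Topology Set

namespace Pool.Agent.TH631.RC

variable {E : Type} [NormedAddCommGroup E] [InnerProductSpace ℝ E]
variable {G : Type} [Group G] {ρ : HypAction G E}
variable {X : Type} [MetricSpace X] {α : Action G X}

theorem act_inv (α : Action G X) (g : G) (x : X) : α.map g⁻¹ (α.map g x) = x := by
  rw [← α.map_mul, inv_mul_cancel, α.map_one]

theorem act_inv' (α : Action G X) (g : G) (x : X) : α.map g (α.map g⁻¹ x) = x := by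
  rw [← α.map_mul, mul_inv_cancel, α.map_one]

/-- The data of the theorem. -/
structure Data (ρ : HypAction G E) (α : Action G X) (h : Sp E → X) : Prop where
  cont : Continuous h
  equi : ∀ g x, h (F ρ g x) = α.map g (h x)
  inf : (range h).Infinite

theorem equi_of {h : Sp E → X} (he : Equivariant ρ α h) (g : G) (x : Sp E) :
    h (F ρ g x) = α.map g (h x) :=
  he g x (F ρ g x) _ (tt_pos g x) (map_light g x)

theorem inf_of (hE : 1 < Module.finrank ℝ E) {h : Sp E → X} (hc : Continuous h)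
    (hne : ∃ x y, h x ≠ h y) : (range h).Infinite := by
  have hr : 1 < Module.rank ℝ E := by
    have : FiniteDimensional ℝ E := Module.finite_of_finrank_pos (by omega)
    rw [← Module.finrank_eq_rank]
    exact_mod_cast hE
  have h1 : IsPreconnected (Metric.sphere (0 : E) 1) := isPreconnected_sphere hr 0 1
  have h2 : PreconnectedSpace (Sp E) := Subtype.preconnectedSpace h1
  have h3 : IsPreconnected (range h) := isPreconnected_range hc
  obtain ⟨x, y, hxy⟩ := hne
  exact h3.infinite_of_nontrivial ⟨h x, mem_range_self x, h y, mem_range_self y, hxy⟩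

theorem tendsto_cofinite_of_finite {g : ℕ → G} (hg : Tendsto g atTop cofinite)
    (hfin : ∀ R : ℝ, {g : G | T ρ g ≤ R}.Finite) :
    Tendsto (fun k => T ρ (g k)) atTop atTop := by
  rw [tendsto_atTop]
  intro R
  have := hg.eventually ((hfin R).compl_mem_cofinite)
  filter_upwards [this] with k hk
  have hk' : ¬ T ρ (g k) ≤ R := hk
  linarith [not_le.1 hk']

/-- Equicontinuity of elements of bounded displacement. -/
theorem equicont {R : ℝ} {g : ℕ → G} (hg : ∀ k, T ρ (g k) ≤ R) {x : ℕ → Sp E} {x₀ : Sp E}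
    (hx : Tendsto x atTop (𝓝 x₀)) {z : Sp E} (hz : ∀ k, F ρ (g k) (x k) = z) :
    Tendsto (fun k => F ρ (g k) x₀) atTop (𝓝 z) := by
  have hxE : Tendsto (fun k => (x k : E)) atTop (𝓝 (x₀ : E)) :=
    (continuous_subtype_val.tendsto x₀).comp hx
  have h0 : Tendsto (fun k => 1 - inner ℝ (x k : E) (x₀ : E)) atTop (𝓝 0) := by
    have := (tendsto_const_nhds (x := (1 : ℝ))).sub (hxE.inner (tendsto_const_nhds (x := (x₀ : E))))
    rwa [inner_self_one, sub_self] at this
  have hR : 0 < R := (T_pos (g 0)).trans_le (hg 0)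
  have h1 : ∀ k, 1 - inner ℝ (z : E) (F ρ (g k) x₀ : E) ≤
      (4 * R ^ 2) * (1 - inner ℝ (x k : E) (x₀ : E)) := by
    intro k
    have e := key (ρ := ρ) (g k) (x k) x₀
    rw [hz] at e
    have a1 := tt_ge (ρ := ρ) (g k) (x k)
    have a2 := tt_ge (ρ := ρ) (g k) x₀
    have p1 := tt_pos (ρ := ρ) (g k) (x k)
    have p2 := tt_pos (ρ := ρ) (g k) x₀
    have b1 : 1 ≤ tt ρ (g k) (x k) * (2 * R) :=
      a1.trans (mul_le_mul_of_nonneg_left (by linarith [hg k]) p1.le)
    have b2 : 1 ≤ tt ρ (g k) x₀ * (2 * R) :=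
      a2.trans (mul_le_mul_of_nonneg_left (by linarith [hg k]) p2.le)
    have b3 : 1 ≤ (tt ρ (g k) (x k) * tt ρ (g k) x₀) * (4 * R ^ 2) := by
      have := mul_le_mul b1 b2 zero_le_one (by positivity)
      nlinarith
    have nn := one_sub_inner_nonneg z (F ρ (g k) x₀)
    rw [← e]
    nlinarith
  have h2 : Tendsto (fun k => 1 - inner ℝ (z : E) (F ρ (g k) x₀ : E)) atTop (𝓝 0) := by
    refine tendsto_of_tendsto_of_tendsto_of_le_of_le tendsto_const_nhds ?_
      (fun k => one_sub_inner_nonneg z _) h1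
    simpa using h0.const_mul (4 * R ^ 2)
  have h3 : Tendsto (fun k => ‖(z : E) - (F ρ (g k) x₀ : E)‖ ^ 2) atTop (𝓝 0) := by
    have := h2.const_mul 2
    rw [mul_zero] at this
    refine this.congr fun k => ?_
    rw [one_sub_inner]; ring
  have h4 : Tendsto (fun k => ‖(F ρ (g k) x₀ : E) - (z : E)‖) atTop (𝓝 0) := by
    have := h3.sqrt
    simpa [Real.sqrt_sq, norm_sub_rev] using this
  rw [tendsto_iff_norm_sub_tendsto_zero.symm] at h4
  exact tendsto_subtype_rng.2 h4

theorem Data.finite [FiniteDimensional ℝ E] [CompactSpace X] {h : Sp E → X} (hd : Data ρ α h)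
    (hα : IsConvergence α) (R : ℝ) : {g : G | T ρ g ≤ R}.Finite := by
  by_contra hinf
  have hinf' : {g : G | T ρ g ≤ R}.Infinite := hinf
  set e := hinf'.natEmbedding
  have hinj : Function.Injective fun n => (e n : G) := fun m n h => e.injective (Subtype.ext h)
  have hcof : Tendsto (fun n => (e n : G)) atTop cofinite := by
    rw [← Nat.cofinite_eq_atTop]
    exact hinj.tendsto_cofinite
  obtain ⟨φ, hφ, b, q, hbq⟩ := hα _ hcof
  set g₁ : ℕ → G := fun n => (e (φ n) : G) with hg₁
  obtain ⟨a, -, ψ, hψ, ha⟩ := isCompact_univ.tendsto_subseq (x := fun n => α.map (g₁ n) q)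
    (fun n => mem_univ _)
  -- a third value
  obtain ⟨c, ⟨z, rfl⟩, hcab⟩ := (hd.inf.sdiff (Set.toFinite {a, b})).nonempty
  have hca : h z ≠ a := fun h0 => hcab (by simp [h0])
  have hcb : h z ≠ b := fun h0 => hcab (by simp [h0])
  set g₂ : ℕ → G := fun n => g₁ (ψ n) with hg₂
  have hb2 : ∀ V ∈ 𝓝 b, ∀ W ∈ 𝓝 q, ∀ᶠ n in atTop, ∀ x, x ∉ W → α.map (g₂ n) x ∈ V :=
    fun V hV W hW => hψ.tendsto_atTop.eventually (hbq V hV W hW)
  obtain ⟨zs, -, θ, hθ, hzs⟩ := (isCompact_univ (X := Sp E)).tendsto_subseq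
    (x := fun n => F ρ (g₂ n)⁻¹ z) (fun n => mem_univ _)
  -- the limit is over `q`
  have hq : h zs = q := by
    by_contra hne
    obtain ⟨V, W, hV, hW, hVW⟩ := t2_separation_nhds hne
    have h1 : ∀ᶠ n in atTop, h (F ρ (g₂ (θ n))⁻¹ z) ∈ V :=
      ((hd.cont.tendsto zs).comp hzs).eventually hV
    have h2 := hθ.tendsto_atTop.eventually
      (hb2 {h z}ᶜ (isOpen_compl_singleton.mem_nhds (by simpa using hcb.symm)) W hW)
    obtain ⟨n, hn1, hn2⟩ := (h1.and h2).exists
    have h3 := hn2 _ (fun hw => (Set.disjoint_left.1 hVW) hn1 hw)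
    rw [← hd.equi, F_inv] at h3
    exact h3 rfl
  have hF : Tendsto (fun n => F ρ (g₂ (θ n)) zs) atTop (𝓝 z) := by
    refine equicont (R := R) (g := fun n => g₂ (θ n)) (fun n => ?_) hzs (fun n => F_inv _ _)
    exact (e (φ (ψ (θ n)))).2
  have h1 : Tendsto (fun n => h (F ρ (g₂ (θ n)) zs)) atTop (𝓝 (h z)) := (hd.cont.tendsto z).comp hF
  have h2 : Tendsto (fun n => h (F ρ (g₂ (θ n)) zs)) atTop (𝓝 a) := by
    have := ha.comp hθ.tendsto_atTop
    refine this.congr fun n => ?_
    simp only [Function.comp, hd.equi, hq, hg₂]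
  exact hca (tendsto_nhds_unique h1 h2)

theorem Data.top [FiniteDimensional ℝ E] [CompactSpace X] {h : Sp E → X} (hd : Data ρ α h)
    (hα : IsConvergence α) {g : ℕ → G} (hg : Tendsto g atTop cofinite) :
    Tendsto (fun k => T ρ (g k)) atTop atTop :=
  tendsto_cofinite_of_finite hg (hd.finite hα)

/-- A conical point has at most one preimage, and its light vector can be contracted. -/
theorem Data.conical [FiniteDimensional ℝ E] [CompactSpace X] {h : Sp E → X} (hd : Data ρ α h)
    (hα : IsConvergence α) {y : X} (hy : Conical α y) :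
    (∀ x x', h x = y → h x' = y → x = x') ∧ ∀ x, h x = y → ∃ g, tt ρ g x < 1 / 2 := by
  obtain ⟨g, a, b, hg, hab, hya, hwb⟩ := hy
  obtain ⟨φ, hφ, p, q, hL⟩ := exists_lim (hd.top hα hg)
  have hya' : Tendsto (fun k => α.map ((g ∘ φ) k) y) atTop (𝓝 a) := hya.comp hφ.tendsto_atTop
  have hwb' : ∀ w, w ≠ y → Tendsto (fun k => α.map ((g ∘ φ) k) w) atTop (𝓝 b) :=
    fun w hw => (hwb w hw).comp hφ.tendsto_atTop
  have hp : h p = b := by
    obtain ⟨c, ⟨w, rfl⟩, hc⟩ := (hd.inf.sdiff (Set.toFinite {y, h q})).nonempty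
    have h1 : h w ≠ y := fun h0 => hc (by simp [h0])
    have h2 : w ≠ q := fun h0 => hc (by simp [h0])
    have h3 := (hd.cont.tendsto p).comp (hL.attract (tendsto_const_nhds (x := w)) h2)
    refine tendsto_nhds_unique h3 ((hwb' _ h1).congr fun k => ?_)
    simp only [Function.comp, hd.equi]
  have hx : ∀ x, h x = y → x = q := by
    intro x hx
    by_contra hne
    have h3 := (hd.cont.tendsto p).comp (hL.attract (tendsto_const_nhds (x := x)) hne)
    refine hab ((tendsto_nhds_unique (hya'.congr fun k => ?_) h3).trans hp)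
    simp only [Function.comp, hd.equi, hx]
  refine ⟨fun x x' h1 h2 => (hx x h1).trans (hx x' h2).symm, fun x hxy => ?_⟩
  obtain ⟨c, -, ψ, hψ, hc⟩ := (isCompact_univ (X := Sp E)).tendsto_subseq
    (x := fun n => F ρ ((g ∘ φ) n) x) (fun n => mem_univ _)
  have hca : h c = a := by
    have h3 := (hd.cont.tendsto c).comp hc
    refine tendsto_nhds_unique h3 ((hya'.comp hψ.tendsto_atTop).congr fun k => ?_)
    simp only [Function.comp, hd.equi, hxy]
  have hcp : c ≠ p := fun h0 => hab (by rw [← hca, h0, hp])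
  have h4 := (hL.comp hψ.tendsto_atTop).shrink (x := x) hc hcp
  obtain ⟨k, hk⟩ := (h4.eventually (gt_mem_nhds (show (0 : ℝ) < 1 / 2 by norm_num))).exists
  exact ⟨_, hk⟩

end Pool.Agent.TH631.RC
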